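import Pool.Agent.Helper36.SY.ProB

/-!
# The profile of a body of revolution (project MP_a2630c_SY, module PRO)
-/

open MeasureTheory Set Metric Real Filter Topology
open scoped RealInnerProductSpace ENNReal
open Pool.Agent.Helper16.Buoy (E cap IsEllipsoid Homothetic buoyancyBody)
open Pool.Agent.Helper73.HV (supp)
open Pool.Agent.Helper73.LR (CB vol GG Sol aff)
open Pool.Agent.Helper73.SY

namespace Pool.Agent.Helper36.SY

variable {n : ℕ} {K : Set (E n)} {δ lam : ℝ} {X : E n → E n} {t : E n → ℝ} {e f : E n}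

theorem ie_u (h : ON e f) (κ : ℝ) : inner ℝ e (κ • e + f) = κ := by
  rw [inner_add_right, inner_smul_right, pp h, h.pq]; ring

theorem if_u (h : ON e f) (κ : ℝ) : inner ℝ f (κ • e + f) = (1 : ℝ) := by
  rw [inner_add_right, inner_smul_right, qp h, qq h]; ring

theorem u_ne (h : ON e f) (κ : ℝ) : κ • e + f ≠ 0 := by
  intro h0
  have := if_u h κ
  rw [h0, inner_zero_right] at this
  norm_num at this

theorem e_ne (h : ON e f) : e ≠ 0 := by
  rintro rfl
  have := h.p1
  simp at this

theorem sg_mem (hR : RevSym K e) {v x : E n} (hv : ‖v‖ = 1) (hev : inner ℝ e v = (0 : ℝ))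
    (hx : x ∈ K) : sg v x ∈ K := by
  rw [← hR v hv hev]; exact mem_image_of_mem _ hx

theorem inner_sg (u v x : E n) :
    inner ℝ u (sg v x) = (inner ℝ u x : ℝ) - 2 * inner ℝ v x * inner ℝ u v := by
  rw [sg, inner_sub_right, inner_smul_right]

theorem X_perp1 (D : Dat K δ lam X t) (hR : RevSym K e) {u v : E n} (hu : u ≠ 0) (hv : ‖v‖ = 1)
    (hev : inner ℝ e v = (0 : ℝ)) (huv : inner ℝ u v = (0 : ℝ)) : inner ℝ v (X u) = (0 : ℝ) := by
  have h1 := D.Xuni u hu (sg v (X u)) (sg_mem hR hv hev (D.Xmem u hu)) (by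
    rw [inner_sg, huv, mul_zero, sub_zero, D.Xsup u hu])
  have h2 : (2 * inner ℝ v (X u) : ℝ) • v = 0 := by
    have : X u - (2 * inner ℝ v (X u) : ℝ) • v = X u := h1
    simpa using this
  have h3 : v ≠ 0 := by rintro rfl; simp at hv
  rcases smul_eq_zero.1 h2 with h4 | h4
  · linarith
  · exact absurd h4 h3

theorem X_perp (D : Dat K δ lam X t) (hR : RevSym K e) {u y : E n} (hu : u ≠ 0)
    (hev : inner ℝ e y = (0 : ℝ)) (huv : inner ℝ u y = (0 : ℝ)) : inner ℝ y (X u) = (0 : ℝ) := by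
  by_cases hy : y = 0
  · rw [hy, inner_zero_left]
  have hn : 0 < ‖y‖ := norm_pos_iff.2 hy
  have h1 := X_perp1 D hR hu (v := ‖y‖⁻¹ • y)
    (by rw [norm_smul, norm_inv, norm_norm]; exact inv_mul_cancel₀ hn.ne')
    (by rw [inner_smul_right, hev, mul_zero]) (by rw [inner_smul_right, huv, mul_zero])
  rw [inner_smul_left, conj_trivial] at h1
  rcases mul_eq_zero.1 h1 with h2 | h2
  · exact absurd h2 (inv_pos.2 hn).ne'
  · exact h2

theorem spt (D : Dat K δ lam X t) (h : ON e f) (hR : RevSym K e) (κ : ℝ) :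
    X (κ • e + f) = zz X e f κ • e + ss X e f κ • f := by
  set y : E n := X (κ • e + f) - (zz X e f κ • e + ss X e f κ • f) with hy
  have h1 : inner ℝ e y = (0 : ℝ) := by
    rw [hy, inner_sub_right, inner_add_right, inner_smul_right, inner_smul_right, pp h, h.pq,
      zz]; ring
  have h2 : inner ℝ f y = (0 : ℝ) := by
    rw [hy, inner_sub_right, inner_add_right, inner_smul_right, inner_smul_right, qp h, qq h,
      ss]; ring
  have h3 : inner ℝ (κ • e + f) y = (0 : ℝ) := by
    rw [inner_add_left, inner_smul_left, h1, h2]; simp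
  have h4 := X_perp D hR (u_ne h κ) h1 h3
  have h5 : inner ℝ y y = (0 : ℝ) := by
    nth_rewrite 2 [hy]
    rw [inner_sub_right, h4, inner_add_right, inner_smul_right, inner_smul_right,
      real_inner_comm e y, real_inner_comm f y, h1, h2]; ring
  exact sub_eq_zero.1 (inner_self_eq_zero.1 h5)

theorem X_axis (D : Dat K δ lam X t) (h : ON e f) (hR : RevSym K e) :
    X e = supp K e • e ∧ X (-e) = (-supp K (-e)) • e := by
  have he := e_ne h
  have hne : -e ≠ 0 := neg_ne_zero.2 he
  constructor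
  · set y : E n := X e - supp K e • e with hy
    have h1 : inner ℝ e y = (0 : ℝ) := by
      rw [hy, inner_sub_right, inner_smul_right, pp h, D.Xsup e he]; ring
    have h4 := X_perp D hR he h1 h1
    have h5 : inner ℝ y y = (0 : ℝ) := by
      nth_rewrite 2 [hy]
      rw [inner_sub_right, h4, inner_smul_right, real_inner_comm e y, h1]; ring
    exact sub_eq_zero.1 (inner_self_eq_zero.1 h5)
  · set y : E n := X (-e) - (-supp K (-e)) • e with hy
    have h0 := D.Xsup (-e) hne
    rw [inner_neg_left] at h0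
    have h1 : inner ℝ e y = (0 : ℝ) := by
      rw [hy, inner_sub_right, inner_smul_right, pp h]; linarith
    have h1' : inner ℝ (-e) y = (0 : ℝ) := by rw [inner_neg_left, h1, neg_zero]
    have h4 := X_perp D hR hne h1 h1'
    have h5 : inner ℝ y y = (0 : ℝ) := by
      nth_rewrite 2 [hy]
      rw [inner_sub_right, h4, inner_smul_right, real_inner_comm e y, h1]; ring
    exact sub_eq_zero.1 (inner_self_eq_zero.1 h5)

theorem h_eq (D : Dat K δ lam X t) (h : ON e f) (κ : ℝ) :
    supp K (κ • e + f) = κ * zz X e f κ + ss X e f κ := by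
  rw [← D.Xsup _ (u_ne h κ), inner_add_left, inner_smul_left, zz, ss]; simp

theorem sg_f_mem (h : ON e f) (hR : RevSym K e) {x : E n} (hx : x ∈ K) : sg f x ∈ K :=
  sg_mem hR h.q1 h.pq hx

theorem spos (D : Dat K δ lam X t) (h : ON e f) (hR : RevSym K e) (κ : ℝ) :
    0 < ss X e f κ := by
  have hu := u_ne h κ
  have hx := D.Xmem _ hu
  have h1 : inner ℝ (κ • e + f) (sg f (X (κ • e + f))) ≤ supp K (κ • e + f) :=
    le_sup D (sg_f_mem h hR hx) _
  have hfu : inner ℝ (κ • e + f) f = (1 : ℝ) := by rw [real_inner_comm]; exact if_u h κ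
  rw [inner_sg, D.Xsup _ hu, hfu] at h1
  have h2 : 0 ≤ ss X e f κ := by rw [ss]; linarith
  rcases h2.lt_or_eq with h3 | h3
  · exact h3
  · exfalso
    have hv : κ • e - f ≠ 0 := by
      intro h0
      have : inner ℝ f (κ • e - f) = (-1 : ℝ) := by
        rw [inner_sub_right, inner_smul_right, qp h, qq h]; ring
      rw [h0, inner_zero_right] at this
      norm_num at this
    have h4 : inner ℝ (κ • e - f) (X (κ • e + f)) = supp K (κ • e + f) := by
      rw [h_eq D h κ, inner_sub_left, inner_smul_left, zz]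
      rw [ss] at h3
      rw [ss, ← h3]; simp
    have h5 : supp K (κ • e - f) ≤ supp K (κ • e + f) := by
      have h6 : inner ℝ (κ • e + f) (sg f (X (κ • e - f))) ≤ supp K (κ • e + f) :=
        le_sup D (sg_f_mem h hR (D.Xmem _ hv)) _
      rw [inner_sg, hfu] at h6
      have h7 := D.Xsup _ hv
      rw [inner_sub_left] at h7
      rw [inner_add_left] at h6
      linarith
    have h6 : inner ℝ (κ • e - f) (X (κ • e + f)) = supp K (κ • e - f) := by
      apply le_antisymm (le_sup D hx _)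
      rw [h4]; exact h5
    obtain ⟨s, hs, he⟩ := D.nor (κ • e + f) (κ • e - f) _ hu hv hx (D.Xsup _ hu) h6
    have h7 : inner ℝ f (κ • e - f) = (-1 : ℝ) := by
      rw [inner_sub_right, inner_smul_right, qp h, qq h]; ring
    rw [he, inner_smul_right, if_u h] at h7
    linarith

theorem cross (D : Dat K δ lam X t) (h : ON e f) (κ κ' : ℝ) :
    κ * zz X e f κ' + ss X e f κ' ≤ supp K (κ • e + f) := by
  have := le_sup D (D.Xmem _ (u_ne h κ')) (κ • e + f)
  rw [inner_add_left, inner_smul_left] at this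
  simpa [zz, ss] using this

theorem zmono (D : Dat K δ lam X t) (h : ON e f) : StrictMono (zz X e f) := by
  intro κ1 κ2 h12
  have a1 := cross D h κ1 κ2
  have a2 := cross D h κ2 κ1
  have b1 := h_eq D h κ1
  have b2 := h_eq D h κ2
  have h3 : 0 ≤ (κ2 - κ1) * (zz X e f κ2 - zz X e f κ1) := by nlinarith
  have h4 : 0 ≤ zz X e f κ2 - zz X e f κ1 := by
    by_contra h5
    push Not at h5
    nlinarith
  rcases h4.lt_or_eq with h5 | h5
  · linarith
  · exfalso
    have h6 : zz X e f κ2 = zz X e f κ1 := by linarith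
    have h7 : ss X e f κ2 = ss X e f κ1 := by
      rw [h6] at a1
      rw [← h6] at a2
      nlinarith
    have h8 : inner ℝ (κ1 • e + f) (X (κ2 • e + f)) = supp K (κ1 • e + f) := by
      rw [b1, ← h6, ← h7, inner_add_left, inner_smul_left, zz, ss]; simp
    obtain ⟨s, hs, he⟩ := D.nor (κ2 • e + f) (κ1 • e + f) _ (u_ne h κ2) (u_ne h κ1)
      (D.Xmem _ (u_ne h κ2)) (D.Xsup _ (u_ne h κ2)) h8
    have h9 := if_u h κ1
    have h10 := ie_u h κ1
    rw [he, inner_smul_right, if_u h] at h9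
    rw [he, inner_smul_right, ie_u h] at h10
    have : s = 1 := by linarith
    rw [this] at h10
    linarith

theorem fderiv_supp (D : Dat K δ lam X t) (hC : ContDiffOn ℝ 2 (supp K) {0}ᶜ) {u : E n}
    (hu : u ≠ 0) : fderiv ℝ (supp K) u = innerSL ℝ (X u) := by
  have h1 : ContDiffAt ℝ 2 (supp K) u := hC.contDiffAt (isOpen_compl_singleton.mem_nhds hu)
  have h2 : HasFDerivAt (supp K) (fderiv ℝ (supp K) u) u :=
    (h1.differentiableAt (by norm_num)).hasFDerivAt
  have h3 : HasFDerivAt (fun v => supp K v - innerSL ℝ (X u) v)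
      (fderiv ℝ (supp K) u - innerSL ℝ (X u)) u := h2.sub (innerSL ℝ (X u)).hasFDerivAt
  have h4 : IsLocalMin (fun v => supp K v - innerSL ℝ (X u) v) u := by
    apply Eventually.of_forall
    intro v
    simp only [innerSL_apply_apply]
    rw [real_inner_comm u, D.Xsup u hu, sub_self, real_inner_comm v]
    linarith [le_sup D (D.Xmem u hu) v]
  exact sub_eq_zero.1 (h4.hasFDerivAt_eq_zero h3)

theorem cd (D : Dat K δ lam X t) (hC : ContDiffOn ℝ 2 (supp K) {0}ᶜ) (h : ON e f) (w : E n) :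
    ContDiff ℝ 1 (fun κ : ℝ => (inner ℝ w (X (κ • e + f)) : ℝ)) := by
  have h0 : (fun κ : ℝ => (inner ℝ w (X (κ • e + f)) : ℝ))
      = fun κ : ℝ => fderiv ℝ (supp K) (κ • e + f) w := by
    funext κ
    rw [fderiv_supp D hC (u_ne h κ), innerSL_apply_apply, real_inner_comm]
  rw [h0, contDiff_iff_contDiffAt]
  intro κ
  have h1 : ContDiffAt ℝ 2 (supp K) (κ • e + f) :=
    hC.contDiffAt (isOpen_compl_singleton.mem_nhds (u_ne h κ))
  have h2 : ContDiffAt ℝ 1 (fderiv ℝ (supp K)) (κ • e + f) := h1.fderiv_right (by norm_num)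
  have h3 : ContDiffAt ℝ 1 (fun κ : ℝ => κ • e + f) κ := by fun_prop
  have h4 : ContDiffAt ℝ 1 (fun κ : ℝ => fderiv ℝ (supp K) (κ • e + f)) κ :=
    h2.comp (f := fun κ : ℝ => κ • e + f) κ h3
  exact h4.clm_apply contDiffAt_const

theorem zC1 (D : Dat K δ lam X t) (hC : ContDiffOn ℝ 2 (supp K) {0}ᶜ) (h : ON e f) :
    ContDiff ℝ 1 (zz X e f) := cd D hC h e

theorem sC1 (D : Dat K δ lam X t) (hC : ContDiffOn ℝ 2 (supp K) {0}ᶜ) (h : ON e f) :
    ContDiff ℝ 1 (ss X e f) := cd D hC h f

theorem sd' (D : Dat K δ lam X t) (hC : ContDiffOn ℝ 2 (supp K) {0}ᶜ) (h : ON e f) (κ : ℝ) :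
    deriv (ss X e f) κ = -κ * deriv (zz X e f) κ := by
  have hz : HasDerivAt (zz X e f) (deriv (zz X e f) κ) κ :=
    ((zC1 D hC h).differentiable one_ne_zero κ).hasDerivAt
  have hs : HasDerivAt (ss X e f) (deriv (ss X e f) κ) κ :=
    ((sC1 D hC h).differentiable one_ne_zero κ).hasDerivAt
  have h1 : HasDerivAt (fun κ : ℝ => κ * zz X e f κ + ss X e f κ)
      (1 * zz X e f κ + κ * deriv (zz X e f) κ + deriv (ss X e f) κ) κ :=
    ((hasDerivAt_id κ).mul hz).add hs
  have h2 : HasDerivAt (fun κ : ℝ => supp K (κ • e + f)) (zz X e f κ) κ := by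
    have h3 : ContDiffAt ℝ 2 (supp K) (κ • e + f) :=
      hC.contDiffAt (isOpen_compl_singleton.mem_nhds (u_ne h κ))
    have h4 : HasFDerivAt (supp K) (innerSL ℝ (X (κ • e + f))) (κ • e + f) := by
      rw [← fderiv_supp D hC (u_ne h κ)]
      exact (h3.differentiableAt (by norm_num)).hasFDerivAt
    have h5 : HasDerivAt (fun κ : ℝ => κ • e + f) e κ := by
      have := ((hasDerivAt_id κ).smul_const e).add_const f
      simpa using this
    have h6 := h4.comp_hasDerivAt κ h5
    rw [innerSL_apply_apply, real_inner_comm] at h6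
    exact h6
  have h7 : (fun κ : ℝ => κ * zz X e f κ + ss X e f κ) = fun κ : ℝ => supp K (κ • e + f) := by
    funext κ; rw [h_eq D h κ]
  rw [h7] at h1
  have := h1.unique h2
  linarith

theorem zd' (D : Dat K δ lam X t) (hC : ContDiffOn ℝ 2 (supp K) {0}ᶜ) (h : ON e f) (κ : ℝ) :
    0 < deriv (zz X e f) κ := by
  obtain ⟨c, hc, hev⟩ := second_diff D (u := κ • e + f) (w := e) (z := e - κ • f) (u_ne h κ)
    (by
      rw [inner_sub_right, inner_smul_right, real_inner_comm e, real_inner_comm f, ie_u h,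
        if_u h]; ring)
    (by rw [inner_sub_right, inner_smul_right, pp h, h.pq]; ring)
  have hz : HasDerivAt (zz X e f) (deriv (zz X e f) κ) κ :=
    ((zC1 D hC h).differentiable one_ne_zero κ).hasDerivAt
  -- symmetric difference quotient
  have h1 : Tendsto (fun ε : ℝ => ε⁻¹ * (zz X e f (κ + ε) - zz X e f (κ - ε))) (𝓝[>] 0)
      (𝓝 (2 * deriv (zz X e f) κ)) := by
    have a1 : HasDerivAt (fun ε : ℝ => zz X e f (κ + ε)) (deriv (zz X e f) κ) 0 := by
      have : HasDerivAt (zz X e f) (deriv (zz X e f) κ) (κ + 0) := by simpa using hz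
      exact HasDerivAt.comp_const_add κ 0 this
    have a2 : HasDerivAt (fun ε : ℝ => zz X e f (κ - ε)) (-deriv (zz X e f) κ) 0 := by
      have : HasDerivAt (zz X e f) (deriv (zz X e f) κ) (κ - 0) := by simpa using hz
      exact HasDerivAt.comp_const_sub κ 0 this
    have a3 := (a1.sub a2).tendsto_slope_zero_right
    have a4 : deriv (zz X e f) κ - -deriv (zz X e f) κ = 2 * deriv (zz X e f) κ := by ring
    rw [a4] at a3
    refine a3.congr fun ε => ?_
    simp
  have h2 : ∀ᶠ ε in 𝓝[>] (0 : ℝ), c ≤ ε⁻¹ * (zz X e f (κ + ε) - zz X e f (κ - ε)) := by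
    filter_upwards [hev, eventually_mem_nhdsWithin] with ε h3 h4
    have hε : 0 < ε := h4
    have e1 : κ • e + f + ε • e = (κ + ε) • e + f := by module
    have e2 : κ • e + f - ε • e = (κ - ε) • e + f := by module
    rw [e1, e2] at h3
    have b1 := cross D h κ (κ + ε)
    have b2 := cross D h κ (κ - ε)
    rw [h_eq D h (κ + ε), h_eq D h (κ - ε)] at h3
    rw [← div_eq_inv_mul, le_div_iff₀ hε]
    have h5 : c * ε ^ 2 ≤ ε * (zz X e f (κ + ε) - zz X e f (κ - ε)) := by nlinarith
    have h6 : ε * (c * ε) ≤ ε * (zz X e f (κ + ε) - zz X e f (κ - ε)) := by nlinarith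
    exact le_of_mul_le_mul_left h6 hε
  have := ge_of_tendsto h1 h2
  linarith

theorem z_bounds (D : Dat K δ lam X t) (h : ON e f) (κ : ℝ) :
    -supp K (-e) < zz X e f κ ∧ zz X e f κ < supp K e := by
  have hm := zmono D h
  constructor
  · have h1 : zz X e f (κ - 1) < zz X e f κ := hm (by linarith)
    have h2 := le_sup D (D.Xmem _ (u_ne h (κ - 1))) (-e)
    rw [inner_neg_left] at h2
    rw [zz] at h1
    linarith
  · have h1 : zz X e f κ < zz X e f (κ + 1) := hm (by linarith)
    have h2 := le_sup D (D.Xmem _ (u_ne h (κ + 1))) e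
    change zz X e f (κ + 1) ≤ supp K e at h2
    linarith

theorem z_top (D : Dat K δ lam X t) (h : ON e f) :
    Tendsto (zz X e f) atTop (𝓝 (supp K e)) := by
  have he := e_ne h
  have h1 : Tendsto (fun κ : ℝ => e + κ⁻¹ • f) atTop (𝓝 e) := by
    have : Tendsto (fun κ : ℝ => e + κ⁻¹ • f) atTop (𝓝 (e + (0 : ℝ) • f)) :=
      tendsto_const_nhds.add (tendsto_inv_atTop_zero.smul_const f)
    simpa using this
  have h2 : Tendsto (fun κ : ℝ => (inner ℝ e (X (e + κ⁻¹ • f)) : ℝ)) atTop
      (𝓝 (inner ℝ e (X e))) :=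
    tendsto_const_nhds.inner ((cX D he).tendsto.comp h1)
  rw [D.Xsup e he] at h2
  refine h2.congr' ?_
  filter_upwards [eventually_gt_atTop 0] with κ hκ
  have h3 : e + κ⁻¹ • f = κ⁻¹ • (κ • e + f) := by
    rw [smul_add, smul_smul, inv_mul_cancel₀ hκ.ne', one_smul]
  rw [h3, X_smul D (u_ne h κ) (inv_pos.2 hκ), zz]

theorem z_bot (D : Dat K δ lam X t) (h : ON e f) :
    Tendsto (zz X e f) atBot (𝓝 (-supp K (-e))) := by
  have hne : -e ≠ 0 := neg_ne_zero.2 (e_ne h)
  have h1 : Tendsto (fun κ : ℝ => -e + (-κ⁻¹) • f) atBot (𝓝 (-e)) := by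
    have h0 : Tendsto (fun κ : ℝ => -κ⁻¹) atBot (𝓝 0) := by
      have := tendsto_inv_atBot_zero (𝕜 := ℝ)
      simpa using this.neg
    have : Tendsto (fun κ : ℝ => -e + (-κ⁻¹) • f) atBot (𝓝 (-e + (0 : ℝ) • f)) :=
      tendsto_const_nhds.add (h0.smul_const f)
    simpa using this
  have h2 : Tendsto (fun κ : ℝ => (inner ℝ e (X (-e + (-κ⁻¹) • f)) : ℝ)) atBot
      (𝓝 (inner ℝ e (X (-e)))) :=
    tendsto_const_nhds.inner ((cX D hne).tendsto.comp h1)
  have h4 : inner ℝ e (X (-e)) = -supp K (-e) := by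
    have := D.Xsup (-e) hne
    rw [inner_neg_left] at this
    linarith
  rw [h4] at h2
  refine h2.congr' ?_
  filter_upwards [eventually_lt_atBot 0] with κ hκ
  have h3 : -e + (-κ⁻¹) • f = (-κ⁻¹) • (κ • e + f) := by
    rw [smul_add, smul_smul, neg_mul, inv_mul_cancel₀ hκ.ne]; simp
  rw [h3, X_smul D (u_ne h κ) (by rw [neg_pos]; exact inv_lt_zero.2 hκ), zz]

theorem zsurj' (D : Dat K δ lam X t) (hC : ContDiffOn ℝ 2 (supp K) {0}ᶜ) (h : ON e f) (y : ℝ)
    (h1 : -supp K (-e) < y) (h2 : y < supp K e) : ∃ κ, zz X e f κ = y := by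
  obtain ⟨a, ha⟩ := ((z_bot D h).eventually_lt_const h1).exists
  obtain ⟨b, hb⟩ := ((z_top D h).eventually_const_lt h2).exists
  have hc := (zC1 D hC h).continuous
  obtain ⟨κ, hκ⟩ := mem_range_of_exists_le_of_exists_ge hc ⟨a, ha.le⟩ ⟨b, hb.le⟩
  exact ⟨κ, hκ⟩

theorem swap (hR : RevSym K e) {a b : E n} {z : ℝ} (hab : ‖a‖ = ‖b‖)
    (ha : inner ℝ e a = (0 : ℝ)) (hb : inner ℝ e b = (0 : ℝ)) (hz : z • e + a ∈ K) :
    z • e + b ∈ K := by
  by_cases hne : a = b
  · rw [← hne]; exact hz
  have h0 : a - b ≠ 0 := sub_ne_zero.2 hne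
  have hn : 0 < ‖a - b‖ := norm_pos_iff.2 h0
  set v : E n := ‖a - b‖⁻¹ • (a - b) with hv
  have hv1 : ‖v‖ = 1 := by
    rw [hv, norm_smul, norm_inv, norm_norm]; exact inv_mul_cancel₀ hn.ne'
  have hev : inner ℝ e v = (0 : ℝ) := by
    rw [hv, inner_smul_right, inner_sub_right, ha, hb]; simp
  have h1 := sg_mem hR hv1 hev hz
  have h2 : inner ℝ v (z • e + a) = ‖a - b‖ / 2 := by
    have h3 : inner ℝ (a - b) a = ‖a - b‖ ^ 2 / 2 := by
      have h4 : ‖a - b‖ ^ 2 = ‖a‖ ^ 2 - 2 * inner ℝ a b + ‖b‖ ^ 2 := norm_sub_sq_real a b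
      rw [inner_sub_left, real_inner_self_eq_norm_sq, real_inner_comm a b, h4, ← hab]; ring
    rw [inner_add_right, inner_smul_right, real_inner_comm e v, hev, hv, inner_smul_left,
      conj_trivial, h3]
    field_simp
    simp
  have h3 : sg v (z • e + a) = z • e + b := by
    rw [sg, h2, hv, smul_smul]
    have : 2 * (‖a - b‖ / 2) * ‖a - b‖⁻¹ = 1 := by field_simp
    rw [this]; module
  rwa [h3] at h1

theorem mem' (D : Dat K δ lam X t) (hC : ContDiffOn ℝ 2 (supp K) {0}ᶜ) (h : ON e f)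
    (hR : RevSym K e) (x : E n) :
    x ∈ K ↔ (∃ κ, inner ℝ e x = zz X e f κ ∧ ‖x - (inner ℝ e x : ℝ) • e‖ ≤ ss X e f κ)
      ∨ x = supp K e • e ∨ x = (-supp K (-e)) • e := by
  have he := e_ne h
  have hne : -e ≠ 0 := neg_ne_zero.2 he
  obtain ⟨hx1, hx2⟩ := X_axis D h hR
  constructor
  · intro hx
    set z : ℝ := inner ℝ e x with hz
    have b1 : z ≤ supp K e := le_sup D hx e
    have b2 : -supp K (-e) ≤ z := by
      have := le_sup D hx (-e)
      rw [inner_neg_left] at this
      linarith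
    rcases b1.lt_or_eq with b3 | b3
    · rcases b2.lt_or_eq with b4 | b4
      · left
        obtain ⟨κ, hκ⟩ := zsurj' D hC h z b4 b3
        refine ⟨κ, hκ.symm, ?_⟩
        set a : E n := x - z • e with ha
        have hea : inner ℝ e a = (0 : ℝ) := by
          rw [ha, inner_sub_right, inner_smul_right, pp h, ← hz]; ring
        have hxa : z • e + a ∈ K := by rw [ha]; simpa using hx
        have hf : z • e + ‖a‖ • f ∈ K := by
          apply swap hR _ hea _ hxa
          · rw [norm_smul, h.q1, norm_norm, mul_one]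
          · rw [inner_smul_right, h.pq, mul_zero]
        have h5 := le_sup D hf (κ • e + f)
        rw [h_eq D h κ, inner_add_right, inner_smul_right, inner_smul_right,
          real_inner_comm e, real_inner_comm f, ie_u h, if_u h, hκ] at h5
        linarith
      · right; right
        rw [← hx2]
        apply D.Xuni _ hne _ hx
        rw [inner_neg_left]
        rw [← hz]; linarith
    · right; left
      rw [← hx1]
      exact D.Xuni _ he _ hx b3
  · rintro (⟨κ, h1, h2⟩ | h1 | h1)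
    · set z : ℝ := zz X e f κ with hz
      rw [h1] at h2
      set a : E n := x - z • e with ha
      have hea : inner ℝ e a = (0 : ℝ) := by
        rw [ha, inner_sub_right, inner_smul_right, pp h, h1]; ring
      have hxa : x = z • e + a := by rw [ha]; abel
      have hs := spos D h hR κ
      set s : ℝ := ss X e f κ with hsd
      have hmem : z • e + s • f ∈ K := by
        rw [← spt D h hR κ]; exact D.Xmem _ (u_ne h κ)
      -- unit vector in the direction of `a`
      obtain ⟨g, hg1, heg, hag⟩ : ∃ g : E n, ‖g‖ = 1 ∧ inner ℝ e g = (0 : ℝ) ∧ a = ‖a‖ • g := by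
        by_cases ha0 : a = 0
        · exact ⟨f, h.q1, h.pq, by rw [ha0]; simp⟩
        · have hn : 0 < ‖a‖ := norm_pos_iff.2 ha0
          refine ⟨‖a‖⁻¹ • a, ?_, ?_, ?_⟩
          · rw [norm_smul, norm_inv, norm_norm]; exact inv_mul_cancel₀ hn.ne'
          · rw [inner_smul_right, hea, mul_zero]
          · rw [smul_smul, mul_inv_cancel₀ hn.ne', one_smul]
      have m1 : z • e + s • g ∈ K := by
        apply swap hR _ _ _ hmem
        · rw [norm_smul, norm_smul, h.q1, hg1]
        · rw [inner_smul_right, h.pq, mul_zero]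
        · rw [inner_smul_right, heg, mul_zero]
      have m2 : z • e + (-s) • g ∈ K := by
        apply swap hR _ _ _ hmem
        · rw [norm_smul, norm_smul, h.q1, hg1, norm_neg]
        · rw [inner_smul_right, h.pq, mul_zero]
        · rw [inner_smul_right, heg, mul_zero]
      have hr0 : 0 ≤ ‖a‖ := norm_nonneg a
      have hc := D.cs.cb.conv m1 m2 (a := (1 + ‖a‖ / s) / 2) (b := (1 - ‖a‖ / s) / 2)
        (by positivity) (by
          have : ‖a‖ / s ≤ 1 := (div_le_one hs).2 h2
          linarith) (by ring)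
      have e1 : ((1 + ‖a‖ / s) / 2) • (z • e + s • g) + ((1 - ‖a‖ / s) / 2) • (z • e + (-s) • g)
          = z • e + (‖a‖ / s * s) • g := by module
      rw [e1, div_mul_cancel₀ _ hs.ne', ← hag, ← hxa] at hc
      exact hc
    · rw [h1, ← hx1]; exact D.Xmem _ he
    · rw [h1, ← hx2]; exact D.Xmem _ hne

theorem prof : S_prof := by
  intro n K δ lam X t e f _ D hC h hR
  exact
    { ef := h
      spt := spt D h hR
      spos := spos D h hR
      zmono := zmono D h
      zC1 := zC1 D hC h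
      sC1 := sC1 D hC h
      zd := zd' D hC h
      sd := sd' D hC h
      zlo := fun κ => (z_bounds D h κ).1
      zup := fun κ => (z_bounds D h κ).2
      zsurj := zsurj' D hC h
      mem := mem' D hC h hR }

end Pool.Agent.Helper36.SY
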