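import Pool.Agent.Helper36.SY.TopA

/-!
# Slabs and second differences (project MP_a2630c_SY, module PRO)
-/

open MeasureTheory Set Metric Real Filter Topology
open scoped RealInnerProductSpace ENNReal
open Pool.Agent.Helper16.Buoy (E cap IsEllipsoid Homothetic buoyancyBody)
open Pool.Agent.Helper73.HV (supp)
open Pool.Agent.Helper73.LR (CB vol GG Sol aff)
open Pool.Agent.Helper73.SY

namespace Pool.Agent.Helper36.SY

variable {n : ℕ} {K : Set (E n)} {δ lam : ℝ} {X : E n → E n} {t : E n → ℝ} {p q : E n}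

/-- The volume of a slab in a ball is at least proportional to its thickness. -/
theorem slab_lower {u x0 : E n} (hu : u ≠ 0) {r : ℝ} (hr : 0 < r) :
    ∃ c : ℝ, 0 < c ∧ ∃ η0 : ℝ, 0 < η0 ∧ ∀ τ η : ℝ, |τ - inner ℝ u x0| ≤ η0 → 0 < η → η ≤ η0 →
      ENNReal.ofReal (c * η) ≤
        volume (closedBall x0 r ∩ {x : E n | |(inner ℝ u x : ℝ) - τ| ≤ η}) := by
  have hU : 0 < ‖u‖ := norm_pos_iff.2 hu
  set U : ℝ := ‖u‖ with hUd
  set η0 : ℝ := r * U / 8 with hη0
  have hη0p : 0 < η0 := by positivity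
  set V : ℝ := (volume (closedBall x0 (r / 8))).toReal with hV
  have hVtop : volume (closedBall x0 (r / 8)) ≠ ⊤ := measure_closedBall_lt_top.ne
  have hVp : 0 < V := by
    rw [hV]
    exact ENNReal.toReal_pos (measure_closedBall_pos volume x0 (by positivity)).ne' hVtop
  refine ⟨V / (2 * η0), by positivity, η0, hη0p, ?_⟩
  intro τ η hτ hη hηle
  set T : Set (E n) := closedBall x0 r ∩ {x : E n | |(inner ℝ u x : ℝ) - τ| ≤ η} with hT
  set s0 : ℝ := inner ℝ u x0 with hs0
  obtain ⟨M, hM1, hM2⟩ : ∃ M : ℕ, η0 / η ≤ M ∧ (M : ℝ) < η0 / η + 1 :=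
    ⟨⌈η0 / η⌉₊, Nat.le_ceil _, Nat.ceil_lt_add_one (by positivity)⟩
  have hM1' : η0 ≤ M * η := (div_le_iff₀ hη).1 hM1
  have hM2' : M * η < η0 + η := by
    have := mul_lt_mul_of_pos_right hM2 hη
    rwa [add_mul, one_mul, div_mul_cancel₀ _ hη.ne'] at this
  let sj : ℕ → ℝ := fun j => s0 - η0 + (2 * j + 1) * η
  -- covering
  have hcov : closedBall x0 (r / 8) ⊆ ⋃ j ∈ Finset.range M,
      (closedBall x0 (r / 8) ∩ {x : E n | |(inner ℝ u x : ℝ) - sj j| ≤ η}) := by
    intro x hx
    have h1 : |(inner ℝ u x : ℝ) - s0| ≤ η0 := by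
      rw [hs0, ← inner_sub_right]
      refine (abs_real_inner_le_norm _ _).trans ?_
      have : ‖x - x0‖ ≤ r / 8 := by rw [← dist_eq_norm]; exact hx
      calc ‖u‖ * ‖x - x0‖ ≤ U * (r / 8) := by gcongr
        _ = η0 := by rw [hη0]; ring
    obtain ⟨h2, h3⟩ := abs_le.1 h1
    -- index
    set y : ℝ := (inner ℝ u x - s0 + η0) / (2 * η) with hy
    have hy0 : 0 ≤ y := by rw [hy]; apply div_nonneg <;> linarith
    have hyM : y ≤ M := by
      rw [hy, div_le_iff₀ (by positivity)]; linarith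
    have hMpos : 0 < M := by
      by_contra h
      have : M = 0 := by omega
      rw [this] at hM1'
      simp at hM1'
      linarith
    rcases hyM.lt_or_eq with h4 | h4
    · have h5 := Nat.floor_le hy0
      have h6 := Nat.lt_floor_add_one y
      have h7 : ⌊y⌋₊ < M := by
        have : (⌊y⌋₊ : ℝ) < M := lt_of_le_of_lt h5 h4
        exact_mod_cast this
      refine mem_iUnion₂.2 ⟨⌊y⌋₊, Finset.mem_range.2 h7, hx, ?_⟩
      change |(inner ℝ u x : ℝ) - sj ⌊y⌋₊| ≤ η
      have h8 : (inner ℝ u x : ℝ) = y * (2 * η) + s0 - η0 := by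
        rw [hy, div_mul_cancel₀ _ (by positivity)]; ring
      rw [h8, abs_le]
      simp only [sj]
      constructor <;> nlinarith
    · obtain ⟨m, rfl⟩ : ∃ m, M = m + 1 := ⟨M - 1, by omega⟩
      refine mem_iUnion₂.2 ⟨m, Finset.mem_range.2 (Nat.lt_succ_self m), hx, ?_⟩
      change |(inner ℝ u x : ℝ) - sj m| ≤ η
      have h8 : (inner ℝ u x : ℝ) = y * (2 * η) + s0 - η0 := by
        rw [hy, div_mul_cancel₀ _ (by positivity)]; ring
      rw [h8, h4, abs_le]
      simp only [sj]
      push_cast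
      constructor <;> nlinarith
  have hsj : ∀ j ∈ Finset.range M, |τ - sj j| ≤ 3 * η0 := by
    intro j hj
    have h1 : (j : ℝ) + 1 ≤ M := by exact_mod_cast Finset.mem_range.1 hj
    have h2 : (0 : ℝ) ≤ j := Nat.cast_nonneg j
    have h3 : ((j : ℝ) + 1) * η ≤ M * η := mul_le_mul_of_nonneg_right h1 hη.le
    have h4 : 0 ≤ (j : ℝ) * η := mul_nonneg h2 hη.le
    obtain ⟨h5, h6⟩ := abs_le.1 hτ
    simp only [sj]
    rw [abs_le]
    constructor <;> nlinarith
  have hpiece : ∀ j ∈ Finset.range M,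
      volume (closedBall x0 (r / 8) ∩ {x : E n | |(inner ℝ u x : ℝ) - sj j| ≤ η}) ≤ volume T := by
    intro j hj
    set w : E n := ((τ - sj j) / U ^ 2) • u with hw
    have huw : inner ℝ u w = τ - sj j := by
      rw [hw, inner_smul_right, real_inner_self_eq_norm_sq, ← hUd,
        div_mul_cancel₀ _ (by positivity)]
    have hwn : ‖w‖ ≤ 3 * r / 8 := by
      rw [hw, norm_smul, Real.norm_eq_abs, abs_div, abs_of_pos (by positivity : 0 < U ^ 2), ← hUd]
      have := hsj j hj
      calc |τ - sj j| / U ^ 2 * U = |τ - sj j| / U := by field_simp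
        _ ≤ 3 * η0 / U := by gcongr
        _ = 3 * r / 8 := by rw [hη0]; field_simp
    have himg : (fun x => w + x) ''
        (closedBall x0 (r / 8) ∩ {x : E n | |(inner ℝ u x : ℝ) - sj j| ≤ η}) ⊆ T := by
      rintro _ ⟨x, ⟨hx1, hx2⟩, rfl⟩
      refine ⟨?_, ?_⟩
      · rw [mem_closedBall, dist_eq_norm] at hx1 ⊢
        calc ‖w + x - x0‖ = ‖w + (x - x0)‖ := by congr 1; abel
          _ ≤ ‖w‖ + ‖x - x0‖ := norm_add_le _ _
          _ ≤ r := by linarith
      · change |(inner ℝ u (w + x) : ℝ) - τ| ≤ η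
        have hx2' : |(inner ℝ u x : ℝ) - sj j| ≤ η := hx2
        rw [inner_add_right, huw]
        have : τ - sj j + inner ℝ u x - τ = inner ℝ u x - sj j := by ring
        rw [this]; exact hx2'
    calc volume (closedBall x0 (r / 8) ∩ {x : E n | |(inner ℝ u x : ℝ) - sj j| ≤ η})
        = volume ((fun x => w + x) ''
          (closedBall x0 (r / 8) ∩ {x : E n | |(inner ℝ u x : ℝ) - sj j| ≤ η})) := by
          rw [image_add_left, measure_preimage_add]
      _ ≤ volume T := measure_mono himg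
  have hsum : volume (closedBall x0 (r / 8)) ≤ M * volume T := by
    refine (measure_mono hcov).trans ((measure_biUnion_finset_le _ _).trans ?_)
    refine (Finset.sum_le_sum hpiece).trans ?_
    simp
  have hTtop : volume T ≠ ⊤ :=
    (lt_of_le_of_lt (measure_mono inter_subset_left) measure_closedBall_lt_top).ne
  have hreal : V ≤ M * (volume T).toReal := by
    have h1 : (M * volume T) ≠ ⊤ := ENNReal.mul_ne_top (ENNReal.natCast_ne_top M) hTtop
    have h2 := (ENNReal.toReal_le_toReal hVtop h1).2 hsum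
    rwa [ENNReal.toReal_mul, ENNReal.toReal_natCast] at h2
  rw [ENNReal.ofReal_le_iff_le_toReal hTtop]
  have hM3 : M * η ≤ 2 * η0 := by linarith
  have h0 : 0 ≤ (volume T).toReal := ENNReal.toReal_nonneg
  rw [div_mul_eq_mul_div, div_le_iff₀ (by positivity)]
  calc V * η ≤ (M * (volume T).toReal) * η := by gcongr
    _ = (volume T).toReal * (M * η) := by ring
    _ ≤ (volume T).toReal * (2 * η0) := by gcongr

end Pool.Agent.Helper36.SY
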