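import Pool.Agent.Helper36.SY.ProA

/-!
# Lower bound for the second difference of the support function (project MP_a2630c_SY, module PRO)
-/

open MeasureTheory Set Metric Real Filter Topology
open scoped RealInnerProductSpace ENNReal
open Pool.Agent.Helper16.Buoy (E cap IsEllipsoid Homothetic buoyancyBody)
open Pool.Agent.Helper73.HV (supp)
open Pool.Agent.Helper73.LR (CB vol GG Sol aff)
open Pool.Agent.Helper73.SY

namespace Pool.Agent.Helper36.SY

variable {n : ℕ} {K : Set (E n)} {δ lam : ℝ} {X : E n → E n} {t : E n → ℝ} {p q : E n}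

/-- There is an interior point of `K` on the hyperplane of level `t u`. -/
theorem exists_int (D : Dat K δ lam X t) {u : E n} (hu : u ≠ 0) :
    ∃ x ∈ interior K, inner ℝ u x = t u := by
  have hcl : K ⊆ closure (interior K) := by
    rw [D.cs.cb.conv.closure_interior_eq_closure_of_nonempty_interior D.cs.cb.int]
    exact subset_closure
  have hc : Continuous fun x : E n => (inner ℝ u x : ℝ) := by fun_prop
  obtain ⟨y, hy1, hy2⟩ : ∃ y ∈ interior K, t u < inner ℝ u y := by
    have h1 : X u ∈ closure (interior K) := hcl (D.Xmem u hu)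
    have h2 : IsOpen {x : E n | t u < inner ℝ u x} := isOpen_lt continuous_const hc
    have h3 : X u ∈ {x : E n | t u < inner ℝ u x} := by
      change t u < inner ℝ u (X u)
      rw [D.Xsup u hu]; exact D.tup u hu
    obtain ⟨y, h4, h5⟩ := mem_closure_iff.1 h1 _ h2 h3
    exact ⟨y, h5, h4⟩
  obtain ⟨z, hz1, hz2⟩ : ∃ z ∈ interior K, inner ℝ u z < t u := by
    have hnu : -u ≠ 0 := neg_ne_zero.2 hu
    have h1 : X (-u) ∈ closure (interior K) := hcl (D.Xmem _ hnu)
    have h2 : IsOpen {x : E n | inner ℝ u x < t u} := isOpen_lt hc continuous_const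
    have h3 : X (-u) ∈ {x : E n | inner ℝ u x < t u} := by
      change inner ℝ u (X (-u)) < t u
      have h4 := D.Xsup (-u) hnu
      rw [inner_neg_left] at h4
      have h5 := D.tlo u hu
      linarith
    obtain ⟨y, h4, h5⟩ := mem_closure_iff.1 h1 _ h2 h3
    exact ⟨y, h5, h4⟩
  have hconv := D.cs.cb.conv.interior
  obtain ⟨x, hx1, hx2⟩ := hconv.isPreconnected.intermediate_value hz1 hy1 hc.continuousOn
    ⟨hz2.le, hy2.le⟩
  exact ⟨x, hx1, hx2⟩

theorem pos_second (a b : ℝ) :
    max (|b| - |a|) 0 ≤ max (a + b) 0 + max (a - b) 0 - 2 * max a 0 := by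
  rcases abs_cases b with ⟨h1, _⟩ | ⟨h1, _⟩ <;> rcases abs_cases a with ⟨h2, _⟩ | ⟨h2, _⟩ <;>
    rw [h1, h2] <;>
    rcases max_cases (a + b) 0 with ⟨h3, _⟩ | ⟨h3, _⟩ <;>
    rcases max_cases (a - b) 0 with ⟨h4, _⟩ | ⟨h4, _⟩ <;>
    rcases max_cases a 0 with ⟨h5, _⟩ | ⟨h5, _⟩ <;> rw [h3, h4, h5] <;>
    apply max_le <;> linarith

theorem second_diff (D : Dat K δ lam X t) {u w z : E n} (hu : u ≠ 0) (huz : inner ℝ u z = (0 : ℝ))
    (hwz : inner ℝ w z = (1 : ℝ)) :
    ∃ c : ℝ, 0 < c ∧ ∀ᶠ ε in 𝓝[>] (0 : ℝ),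
      c * ε ^ 2 ≤ supp K (u + ε • w) + supp K (u - ε • w) - 2 * supp K u := by
  obtain ⟨x0, hx0, hx0t⟩ := exists_int D hu
  have hz0 : z ≠ 0 := by rintro rfl; simp at hwz
  have hzn : 0 < ‖z‖ := norm_pos_iff.2 hz0
  obtain ⟨r, hr, hball⟩ : ∃ r : ℝ, 0 < r ∧ closedBall x0 (2 * r) ⊆ K := by
    obtain ⟨ε, hε, h⟩ := Metric.isOpen_iff.1 isOpen_interior x0 hx0
    refine ⟨ε / 4, by positivity, ?_⟩
    refine (closedBall_subset_ball (by linarith)).trans (h.trans interior_subset)
  set ρ : ℝ := r / ‖z‖ with hρ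
  have hρp : 0 < ρ := by positivity
  set r1 : ℝ := min r (ρ / (2 * (‖w‖ + 1))) with hr1
  have hr1p : 0 < r1 := lt_min hr (by positivity)
  have hr1w : ‖w‖ * r1 ≤ ρ / 2 := by
    have h1 : r1 ≤ ρ / (2 * (‖w‖ + 1)) := min_le_right _ _
    calc ‖w‖ * r1 ≤ (‖w‖ + 1) * (ρ / (2 * (‖w‖ + 1))) := by gcongr; linarith
      _ = ρ / 2 := by field_simp
  -- the two balls
  have hcen : ∀ σ : ℝ, |σ| = 1 → closedBall (x0 + (σ * ρ) • z) r1 ⊆ K ∧
      inner ℝ u (x0 + (σ * ρ) • z) = t u ∧
      ∀ x ∈ closedBall (x0 + (σ * ρ) • z) r1, ρ / 2 ≤ σ * (inner ℝ w x - inner ℝ w x0) := by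
    intro σ hσ
    refine ⟨?_, ?_, ?_⟩
    · refine subset_trans ?_ hball
      apply closedBall_subset_closedBall'
      rw [dist_eq_norm]
      have : x0 + (σ * ρ) • z - x0 = (σ * ρ) • z := by abel
      rw [this, norm_smul, Real.norm_eq_abs, abs_mul, hσ, abs_of_pos hρp, hρ]
      have h1 : r1 ≤ r := min_le_left _ _
      have h2 : 1 * (r / ‖z‖) * ‖z‖ = r := by field_simp
      rw [h2]; linarith
    · rw [inner_add_right, inner_smul_right, huz, hx0t]; ring
    · intro x hx
      rw [mem_closedBall, dist_eq_norm] at hx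
      have h1 : inner ℝ w x - inner ℝ w x0
          = inner ℝ w (x - (x0 + (σ * ρ) • z)) + σ * ρ := by
        simp only [inner_sub_right, inner_add_right, inner_smul_right, hwz]; ring
      have h2 : |(inner ℝ w (x - (x0 + (σ * ρ) • z)) : ℝ)| ≤ ρ / 2 :=
        (abs_real_inner_le_norm _ _).trans
          ((mul_le_mul_of_nonneg_left hx (norm_nonneg w)).trans hr1w)
      rw [h1]
      have h3 : σ * (inner ℝ w (x - (x0 + (σ * ρ) • z)) + σ * ρ)
          = σ * inner ℝ w (x - (x0 + (σ * ρ) • z)) + σ ^ 2 * ρ := by ring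
      have h4 : σ ^ 2 = 1 := by rw [← sq_abs, hσ]; norm_num
      rw [h3, h4]
      have h5 : |σ * (inner ℝ w (x - (x0 + (σ * ρ) • z)) : ℝ)| ≤ ρ / 2 := by
        rw [abs_mul, hσ, one_mul]; exact h2
      linarith [(abs_le.1 h5).1]
  obtain ⟨hK1, hl1, hw1⟩ := hcen 1 (by norm_num)
  obtain ⟨hK2, hl2, hw2⟩ := hcen (-1) (by norm_num)
  set x1 : E n := x0 + (1 * ρ) • z with hx1
  set x2 : E n := x0 + (-1 * ρ) • z with hx2
  obtain ⟨c1, hc1, η1, hη1, hs1⟩ := slab_lower (x0 := x1) hu hr1p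
  obtain ⟨c2, hc2, η2, hη2, hs2⟩ := slab_lower (x0 := x2) hu hr1p
  rw [hl1] at hs1
  rw [hl2] at hs2
  set c : ℝ := min c1 c2 with hc
  have hcp : 0 < c := lt_min hc1 hc2
  have hlam : 0 < lam := D.cs.lpos
  refine ⟨c * (ρ / 4) ^ 2 / lam, by positivity, ?_⟩
  -- levels
  have hcp' : Continuous fun ε : ℝ => u + ε • w := by fun_prop
  have hcm' : Continuous fun ε : ℝ => u - ε • w := by fun_prop
  have hp0 : ContinuousAt (fun ε : ℝ => t (u + ε • w)) 0 := by
    apply ContinuousAt.comp (f := fun ε : ℝ => u + ε • w) (g := t) _ hcp'.continuousAt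
    simpa using ct D hu
  have hm0 : ContinuousAt (fun ε : ℝ => t (u - ε • w)) 0 := by
    apply ContinuousAt.comp (f := fun ε : ℝ => u - ε • w) (g := t) _ hcm'.continuousAt
    simpa using ct D hu
  have hbar : ContinuousAt (fun ε : ℝ => |(t (u + ε • w) + t (u - ε • w)) / 2 - t u|) 0 := by
    exact (((hp0.add hm0).div_const 2).sub continuousAt_const).abs
  have e1 : ∀ᶠ ε in 𝓝 (0 : ℝ), |(t (u + ε • w) + t (u - ε • w)) / 2 - t u| < min η1 η2 := by
    apply hbar.eventually_lt continuousAt_const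
    simp [hη1, hη2]
  have e2 : ∀ᶠ ε in 𝓝 (0 : ℝ), ε * ρ / 4 < min η1 η2 := by
    have : ContinuousAt (fun ε : ℝ => ε * ρ / 4) 0 := by fun_prop
    apply this.eventually_lt continuousAt_const
    simp [hη1, hη2]
  have e3 : ∀ᶠ ε in 𝓝 (0 : ℝ), u + ε • w ≠ 0 := by
    have : ContinuousAt (fun ε : ℝ => u + ε • w) 0 := hcp'.continuousAt
    apply this.eventually_ne
    simpa using hu
  have e4 : ∀ᶠ ε in 𝓝 (0 : ℝ), u - ε • w ≠ 0 := by
    have : ContinuousAt (fun ε : ℝ => u - ε • w) 0 := hcm'.continuousAt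
    apply this.eventually_ne
    simpa using hu
  have e5 : ∀ᶠ ε in 𝓝[>] (0 : ℝ), 0 < ε := eventually_mem_nhdsWithin
  filter_upwards [e1.filter_mono nhdsWithin_le_nhds, e2.filter_mono nhdsWithin_le_nhds,
    e3.filter_mono nhdsWithin_le_nhds, e4.filter_mono nhdsWithin_le_nhds, e5]
    with ε h1 h2 h3 h4 hε
  set τp : ℝ := t (u + ε • w) with hτp
  set τm : ℝ := t (u - ε • w) with hτm
  set τ : ℝ := (τp + τm) / 2 with hτ
  have hKc := D.cs.cb.comp
  have q1 := D.teq _ h3
  have q2 := D.teq _ h4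
  have q3 := D.tmin u hu τ
  -- integral of the second difference
  let F : E n → ℝ := fun x => max (inner ℝ (u + ε • w) x - τp) 0 + max (inner ℝ (u - ε • w) x - τm) 0
    - 2 * max (inner ℝ u x - τ) 0
  have hFc : Continuous F := by fun_prop
  have i1 : IntegrableOn (fun x => max (inner ℝ (u + ε • w) x - τp) 0) K volume :=
    (by fun_prop : Continuous fun x : E n =>
      max (inner ℝ (u + ε • w) x - τp) 0).continuousOn.integrableOn_compact hKc
  have i2 : IntegrableOn (fun x => max (inner ℝ (u - ε • w) x - τm) 0) K volume :=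
    (by fun_prop : Continuous fun x : E n =>
      max (inner ℝ (u - ε • w) x - τm) 0).continuousOn.integrableOn_compact hKc
  have i3 : IntegrableOn (fun x => max (inner ℝ u x - τ) 0) K volume :=
    (by fun_prop : Continuous fun x : E n =>
      max (inner ℝ u x - τ) 0).continuousOn.integrableOn_compact hKc
  have hint : ∫ x in K, F x = GG K (u + ε • w) τp + GG K (u - ε • w) τm - 2 * GG K u τ := by
    have s1 : ∫ x in K, F x = (∫ x in K, (max (inner ℝ (u + ε • w) x - τp) 0
        + max (inner ℝ (u - ε • w) x - τm) 0)) - ∫ x in K, 2 * max (inner ℝ u x - τ) 0 :=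
      integral_sub (i1.add i2) (i3.const_mul 2)
    have s2 : ∫ x in K, (max (inner ℝ (u + ε • w) x - τp) 0
        + max (inner ℝ (u - ε • w) x - τm) 0) = (∫ x in K, max (inner ℝ (u + ε • w) x - τp) 0)
        + ∫ x in K, max (inner ℝ (u - ε • w) x - τm) 0 := integral_add i1 i2
    rw [s1, s2, integral_const_mul]
    rfl
  have hFpt : ∀ x : E n, max (|ε * inner ℝ w x - (τp - τm) / 2| - |inner ℝ u x - τ|) 0 ≤ F x := by
    intro x
    have := pos_second (inner ℝ u x - τ) (ε * inner ℝ w x - (τp - τm) / 2)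
    simp only [F, inner_add_left, inner_sub_left, inner_smul_left, conj_trivial]
    have a1 : (inner ℝ u x : ℝ) + ε * inner ℝ w x - τp
        = inner ℝ u x - τ + (ε * inner ℝ w x - (τp - τm) / 2) := by rw [hτ]; ring
    have a2 : (inner ℝ u x : ℝ) - ε * inner ℝ w x - τm
        = inner ℝ u x - τ - (ε * inner ℝ w x - (τp - τm) / 2) := by rw [hτ]; ring
    rw [a1, a2]; exact this
  have hF0 : ∀ x : E n, 0 ≤ F x := fun x => (le_max_right _ _).trans (hFpt x)
  set ζ : ℝ := (τp - τm) / 2 / ε with hζ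
  have hζe : (τp - τm) / 2 = ε * ζ := by rw [hζ]; field_simp
  have hη : 0 < ε * ρ / 4 := by positivity
  -- one of the two balls is far from the crossing
  obtain ⟨y, hyK, hyv, hyf⟩ : ∃ y : E n, closedBall y r1 ⊆ K ∧
      ENNReal.ofReal (c * (ε * ρ / 4)) ≤
        volume (closedBall y r1 ∩ {x : E n | |(inner ℝ u x : ℝ) - τ| ≤ ε * ρ / 4}) ∧
      ∀ x ∈ closedBall y r1, ε * ρ / 2 ≤ |ε * inner ℝ w x - (τp - τm) / 2| := by
    rcases le_total ζ (inner ℝ w x0) with hz | hz
    · refine ⟨x1, hK1, ?_, ?_⟩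
      · refine le_trans (ENNReal.ofReal_le_ofReal ?_)
          (hs1 τ (ε * ρ / 4) (h1.le.trans (min_le_left _ _)) hη (h2.le.trans (min_le_left _ _)))
        gcongr; exact min_le_left _ _
      · intro x hx
        have := hw1 x hx
        rw [hζe, ← mul_sub, abs_mul, abs_of_pos hε]
        rw [mul_div_assoc]
        apply mul_le_mul_of_nonneg_left _ hε.le
        refine le_trans ?_ (le_abs_self _)
        linarith
    · refine ⟨x2, hK2, ?_, ?_⟩
      · refine le_trans (ENNReal.ofReal_le_ofReal ?_)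
          (hs2 τ (ε * ρ / 4) (h1.le.trans (min_le_right _ _)) hη (h2.le.trans (min_le_right _ _)))
        gcongr; exact min_le_right _ _
      · intro x hx
        have := hw2 x hx
        rw [hζe, ← mul_sub, abs_mul, abs_of_pos hε]
        rw [mul_div_assoc]
        apply mul_le_mul_of_nonneg_left _ hε.le
        refine le_trans ?_ (neg_le_abs _)
        linarith
  set T : Set (E n) := closedBall y r1 ∩ {x : E n | |(inner ℝ u x : ℝ) - τ| ≤ ε * ρ / 4} with hT
  have hTK : T ⊆ K := inter_subset_left.trans hyK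
  have hTm : MeasurableSet T := by
    apply (isClosed_closedBall.inter _).measurableSet
    exact isClosed_le (by fun_prop) continuous_const
  have hTfin : volume T ≠ ⊤ :=
    (lt_of_le_of_lt (measure_mono inter_subset_left) measure_closedBall_lt_top).ne
  have hTr : c * (ε * ρ / 4) ≤ (volume T).toReal :=
    (ENNReal.ofReal_le_iff_le_toReal hTfin).1 hyv
  have hlow : ε * ρ / 4 * (volume T).toReal ≤ ∫ x in K, F x := by
    have hFK : IntegrableOn F K volume := hFc.continuousOn.integrableOn_compact hKc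
    calc ε * ρ / 4 * (volume T).toReal = ∫ x in T, (ε * ρ / 4 : ℝ) := by
          rw [setIntegral_const, smul_eq_mul, mul_comm]; rfl
      _ ≤ ∫ x in T, F x := by
          apply setIntegral_mono_on _ (hFK.mono_set hTK) hTm
          · intro x hx
            refine le_trans ?_ (hFpt x)
            refine le_trans ?_ (le_max_left _ _)
            have a1 := hyf x hx.1
            have a2 : |(inner ℝ u x : ℝ) - τ| ≤ ε * ρ / 4 := hx.2
            linarith
          · exact integrableOn_const hTfin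
      _ ≤ ∫ x in K, F x := by
          apply setIntegral_mono_set hFK
          · exact Eventually.of_forall fun x => hF0 x
          · exact Eventually.of_forall fun x hx => hTK hx
  have hmain : c * (ρ / 4) ^ 2 * ε ^ 2 ≤
      lam * (supp K (u + ε • w) + supp K (u - ε • w) - 2 * supp K u) := by
    have b1 : c * (ρ / 4) ^ 2 * ε ^ 2 ≤ ε * ρ / 4 * (volume T).toReal := by
      calc c * (ρ / 4) ^ 2 * ε ^ 2 = ε * ρ / 4 * (c * (ε * ρ / 4)) := by ring
        _ ≤ _ := by gcongr
    have b2 : δ * τp + δ * τm = 2 * (δ * τ) := by rw [hτ]; ring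
    nlinarith
  rw [div_mul_eq_mul_div, div_le_iff₀ hlam]
  linarith

end Pool.Agent.Helper36.SY
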