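import Pool.Agent.Helper36.SY.TopA

/-!
# The topological step of the sliding method (project MP_a2630c_SY, module TOP)
-/

open MeasureTheory Set Metric Real Filter Topology
open scoped RealInnerProductSpace ENNReal
open Pool.Agent.Helper16.Buoy (E cap IsEllipsoid Homothetic buoyancyBody)
open Pool.Agent.Helper73.HV (supp)
open Pool.Agent.Helper73.LR (CB vol GG Sol aff)
open Pool.Agent.Helper73.SY

namespace Pool.Agent.Helper36.SY

variable {n : ℕ} {K : Set (E n)} {δ lam : ℝ} {X : E n → E n} {t : E n → ℝ} {p q : E n}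

/-- The component in the plane. -/
noncomputable def eE (p q u : E n) : E n := (inner ℝ p u : ℝ) • p + (inner ℝ q u : ℝ) • q

theorem iot_eq (u : E n) : iot p q u = u - (2 : ℝ) • eE p q u := by
  unfold iot eE; module

theorem ip_eE (h : ON p q) (u : E n) : inner ℝ p (eE p q u) = (inner ℝ p u : ℝ) := by
  simp only [eE, inner_add_right, inner_smul_right, pp h, h.pq]; ring

theorem iq_eE (h : ON p q) (u : E n) : inner ℝ q (eE p q u) = (inner ℝ q u : ℝ) := by
  simp only [eE, inner_add_right, inner_smul_right, qq h, qp h]; ring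

/-- Square of the norm of the component in the plane. -/
noncomputable def G2 (p q u : E n) : ℝ := (inner ℝ p u : ℝ) ^ 2 + (inner ℝ q u : ℝ) ^ 2

theorem norm_sq_eq (h : ON p q) (u : E n) :
    ‖u‖ ^ 2 = G2 p q u + ‖u - eE p q u‖ ^ 2 := by
  have h1 : inner ℝ (eE p q u) (u - eE p q u) = (0 : ℝ) := by
    rw [eE, inner_add_left, inner_smul_left, inner_smul_left, inner_sub_right, inner_sub_right,
      ← eE, ip_eE h, iq_eE h]
    simp
  have h2 : ‖eE p q u‖ ^ 2 = G2 p q u := by
    rw [← real_inner_self_eq_norm_sq]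
    nth_rewrite 1 [eE]
    rw [inner_add_left, inner_smul_left, inner_smul_left, ip_eE h, iq_eE h, G2]
    simp only [conj_trivial]; ring
  have h3 : u = eE p q u + (u - eE p q u) := by abel
  nth_rewrite 1 [h3]
  rw [norm_add_sq_real, h1, h2]; ring

theorem eE_smul (s : ℝ) (u : E n) : eE p q (s • u) = s • eE p q u := by
  simp only [eE, inner_smul_right]; module

/-- From a degenerate direction `u` which is not in the plane one finds a degenerate direction
closer to the plane. -/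
theorem descend (hlow : S_lower) (D : Dat K δ lam X t) (h : ON p q) (hK : iot p q '' K = K)
    (hm : ∀ v, Sec p q v → supp K (rr p q v) ≤ supp K v) {u : E n} (hup : (0 : ℝ) < inner ℝ p u)
    (huc : CSec p q u) (hu : PP K t p q u) (hne : u - eE p q u ≠ 0) :
    ∃ w : E n, ‖w‖ = 1 ∧ Sec p q w ∧ PP K t p q w ∧
      ‖u - eE p q u‖ ^ 2 / G2 p q u > ‖w - eE p q w‖ ^ 2 / G2 p q w := by
  have hu0 : u ≠ 0 := by rintro rfl; simp at hup
  set f : E n := eE p q u with hf
  set g : E n := u - f with hg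
  have hfg : u = f + g := by rw [hg]; abel
  have hpf : inner ℝ p f = (inner ℝ p u : ℝ) := ip_eE h u
  have hqf : inner ℝ q f = (inner ℝ q u : ℝ) := iq_eE h u
  have hpg : inner ℝ p g = (0 : ℝ) := by rw [hg, inner_sub_right, hpf, sub_self]
  have hqg : inner ℝ q g = (0 : ℝ) := by rw [hg, inner_sub_right, hqf, sub_self]
  -- the path
  let v : ℝ → E n := fun τ => f + τ • g
  have hvp : ∀ τ, inner ℝ p (v τ) = (inner ℝ p u : ℝ) := by
    intro τ; simp only [v, inner_add_right, inner_smul_right, hpf, hpg]; ring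
  have hvq : ∀ τ, inner ℝ q (v τ) = (inner ℝ q u : ℝ) := by
    intro τ; simp only [v, inner_add_right, inner_smul_right, hqf, hqg]; ring
  have hv0 : ∀ τ, v τ ≠ 0 := by
    intro τ h0
    have := hvp τ
    rw [h0, inner_zero_right] at this
    linarith
  have hvc : Continuous v := by fun_prop
  have hXc : Continuous fun τ => X (v τ) :=
    continuous_iff_continuousAt.2 fun τ => (cX D (hv0 τ)).comp hvc.continuousAt
  let a : ℝ → ℝ := fun τ => inner ℝ u (X (v τ)) - t u
  let b : ℝ → ℝ := fun τ => t u - inner ℝ u (iot p q (X (v τ)))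
  have hac : Continuous a := (continuous_const.inner hXc).sub continuous_const
  have hbc : Continuous b := continuous_const.sub (continuous_const.inner (iot_cont.comp hXc))
  have hab : ∀ τ, 0 < a τ + b τ := by
    intro τ
    have h1 := comp_pos D h hK (v := v τ) (by rw [hvp]; exact hup.ne')
    rw [hvp, hvq] at h1
    simp only [a, b, inner_iot]
    linarith
  have ha1 : 0 < a 1 := by
    have : v 1 = u := by simp only [v, one_smul]; exact hfg.symm
    simp only [a, this, D.Xsup u hu0]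
    linarith [D.tup u hu0]
  have hb1 : 0 < b (-1) := by
    have e1 : v (-1) = iot p q (-u) := by
      rw [iot_eq]
      have : eE p q (-u) = - f := by
        rw [show -u = (-1 : ℝ) • u by simp, eE_smul]; simp [hf]
      rw [this]; simp only [v]; rw [hg]; module
    have hnu : -u ≠ 0 := neg_ne_zero.2 hu0
    have e2 : inner ℝ u (iot p q (X (v (-1)))) = -supp K (-u) := by
      rw [← inner_iot_comm, ← supp_iot D h hK hnu, ← D.Xsup _ (iot_ne h hnu), ← e1]
      have : iot p q u = - v (-1) := by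
        rw [e1]; simp only [iot, inner_neg_right]; module
      rw [this, inner_neg_left]
    simp only [b, e2]
    linarith [D.tlo u hu0]
  -- both positive somewhere in the open interval
  obtain ⟨τ, hτ, hτa, hτb⟩ : ∃ τ ∈ Ioo (-1 : ℝ) 1, 0 < a τ ∧ 0 < b τ := by
    have hA : IsOpen {τ | 0 < a τ} := isOpen_lt continuous_const hac
    have hB : IsOpen {τ | 0 < b τ} := isOpen_lt continuous_const hbc
    have hcl : closure (Ioo (-1 : ℝ) 1) = Icc (-1) 1 := closure_Ioo (by norm_num)
    have nA : (Ioo (-1 : ℝ) 1 ∩ {τ | 0 < a τ}).Nonempty := by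
      have : (1 : ℝ) ∈ closure (Ioo (-1 : ℝ) 1) := by rw [hcl]; norm_num
      obtain ⟨y, hy1, hy2⟩ := mem_closure_iff.1 this _ hA ha1
      exact ⟨y, hy2, hy1⟩
    have nB : (Ioo (-1 : ℝ) 1 ∩ {τ | 0 < b τ}).Nonempty := by
      have : (-1 : ℝ) ∈ closure (Ioo (-1 : ℝ) 1) := by rw [hcl]; norm_num
      obtain ⟨y, hy1, hy2⟩ := mem_closure_iff.1 this _ hB hb1
      exact ⟨y, hy2, hy1⟩
    obtain ⟨τ, h1, h2, h3⟩ := isPreconnected_Ioo _ _ hA hB (fun τ _ => by
      by_contra hc
      simp only [mem_union, Set.mem_ofPred_eq, not_or, not_lt] at hc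
      linarith [hab τ]) nA nB
    exact ⟨τ, h1, h2, h3⟩
  -- move into the open sector
  have hpath : Continuous fun η : ℝ => v τ + η • p := by fun_prop
  have h00 : v τ + (0 : ℝ) • p = v τ := by simp
  have c0 : ContinuousAt (fun η : ℝ => X (v τ + η • p)) 0 := by
    apply ContinuousAt.comp (f := fun η : ℝ => v τ + η • p) (g := X) _ hpath.continuousAt
    rw [h00]; exact cX D (hv0 τ)
  have c1 : ContinuousAt (fun η : ℝ => (inner ℝ u (X (v τ + η • p)) : ℝ)) 0 :=
    continuousAt_const.inner c0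
  have c2 : ContinuousAt (fun η : ℝ => (inner ℝ u (iot p q (X (v τ + η • p))) : ℝ)) 0 :=
    continuousAt_const.inner (iot_cont.continuousAt.comp c0)
  have e1 : ∀ᶠ η in 𝓝 (0 : ℝ), t u < inner ℝ u (X (v τ + η • p)) :=
    ContinuousAt.eventually_lt continuousAt_const c1 (by simp only [h00]; simp only [a] at hτa; linarith)
  have e2 : ∀ᶠ η in 𝓝 (0 : ℝ), inner ℝ u (iot p q (X (v τ + η • p))) < t u :=
    c2.eventually_lt continuousAt_const (by simp only [h00]; simp only [b] at hτb; linarith)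
  have e3 : ∀ᶠ η in 𝓝[>] (0 : ℝ), 0 < η := eventually_mem_nhdsWithin
  obtain ⟨η, hη3, hη1, hη2⟩ :=
    (e3.and ((e1.filter_mono nhdsWithin_le_nhds).and (e2.filter_mono nhdsWithin_le_nhds))).exists
  set y : E n := v τ + η • p with hy
  have hyp : inner ℝ p y = (inner ℝ p u : ℝ) + η := by
    rw [hy, inner_add_right, inner_smul_right, pp h, hvp]; ring
  have hyq : inner ℝ q y = (inner ℝ q u : ℝ) := by
    rw [hy, inner_add_right, inner_smul_right, qp h, hvq]; ring
  have hsec : Sec p q y := by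
    rw [Sec, hyp, hyq]
    have : |(inner ℝ q u : ℝ)| ≤ inner ℝ p u := huc
    linarith
  have hy0 := sec_ne hsec
  have hyn : 0 < ‖y‖ := norm_pos_iff.2 hy0
  have hP := (fwd hlow D h hK hm hu hsec hη2 hη1).2 (‖y‖⁻¹) (inv_pos.2 hyn)
  have hyE : y - eE p q y = τ • g := by
    rw [eE, hyp, hyq, hy]
    have : f = (inner ℝ p u : ℝ) • p + (inner ℝ q u : ℝ) • q := hf
    simp only [v]; rw [this]; module
  refine ⟨‖y‖⁻¹ • y, ?_, ?_, hP, ?_⟩
  · rw [norm_smul, norm_inv, norm_norm]; exact inv_mul_cancel₀ hyn.ne'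
  · rw [Sec, inner_smul_right, inner_smul_right, abs_mul, abs_of_pos (inv_pos.2 hyn)]
    exact mul_lt_mul_of_pos_left hsec (inv_pos.2 hyn)
  · have hgn : 0 < ‖g‖ := norm_pos_iff.2 hne
    have hG : 0 < G2 p q u := by unfold G2; positivity
    have hGy : G2 p q u ≤ G2 p q y := by
      unfold G2; rw [hyp, hyq]; nlinarith
    have hGy0 : 0 < G2 p q y := hG.trans_le hGy
    have e5 : G2 p q (‖y‖⁻¹ • y) = ‖y‖⁻¹ ^ 2 * G2 p q y := by
      unfold G2; rw [inner_smul_right, inner_smul_right]; ring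
    have e6 : ‖(‖y‖⁻¹ • y) - eE p q (‖y‖⁻¹ • y)‖ ^ 2 = ‖y‖⁻¹ ^ 2 * (τ ^ 2 * ‖g‖ ^ 2) := by
      rw [eE_smul, ← smul_sub, hyE, norm_smul, norm_smul, mul_pow, mul_pow]
      simp only [norm_inv, Real.norm_eq_abs, sq_abs, abs_norm]
    rw [e5, e6, mul_div_mul_left _ _ (by positivity)]
    have hτ2 : τ ^ 2 < 1 := by rw [sq_lt_one_iff_abs_lt_one]; exact abs_lt.2 hτ
    calc τ ^ 2 * ‖g‖ ^ 2 / G2 p q y ≤ τ ^ 2 * ‖g‖ ^ 2 / G2 p q u := by gcongr
      _ < ‖g‖ ^ 2 / G2 p q u := by
        apply div_lt_div_of_pos_right _ hG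
        nlinarith [pow_pos hgn 2]

/-- The starting point from a corner. -/
theorem corner (hlow : S_lower) (D : Dat K δ lam X t) (h : ON p q) (hK : iot p q '' K = K)
    (hm : ∀ v, Sec p q v → supp K (rr p q v) ≤ supp K v) {u : E n} (hu0 : u ≠ 0)
    (huc : Cor p q u) (hu : PC K t p q u) :
    ∃ w : E n, ‖w‖ = 1 ∧ Sec p q w ∧ PP K t p q w := by
  let v : ℝ → E n := fun τ => (1 - τ ^ 2) • p + τ • u
  have hvp : ∀ τ, inner ℝ p (v τ) = (1 - τ ^ 2 : ℝ) := by
    intro τ; simp only [v, inner_add_right, inner_smul_right, pp h, huc.1]; ring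
  have hvq : ∀ τ, inner ℝ q (v τ) = (0 : ℝ) := by
    intro τ; simp only [v, inner_add_right, inner_smul_right, qp h, huc.2]; ring
  have hv0 : ∀ τ, v τ ≠ 0 := by
    intro τ h0
    have h1 := hvp τ
    rw [h0, inner_zero_right] at h1
    have h2 : v τ = τ • u := by simp only [v]; rw [← h1]; simp
    rw [h0] at h2
    have h3 : τ ≠ 0 := by rintro rfl; norm_num at h1
    exact smul_ne_zero h3 hu0 h2.symm
  have hvc : Continuous v := by fun_prop
  have hXc : Continuous fun τ => (inner ℝ u (X (v τ)) : ℝ) :=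
    continuous_const.inner
      (continuous_iff_continuousAt.2 fun τ => (cX D (hv0 τ)).comp hvc.continuousAt)
  have hb : inner ℝ u (X (v 1)) = supp K u := by
    have : v 1 = u := by simp [v]
    rw [this, D.Xsup u hu0]
  have ha : inner ℝ u (X (v (-1))) = -supp K (-u) := by
    have e1 : v (-1) = -u := by simp [v]
    have := D.Xsup (-u) (neg_ne_zero.2 hu0)
    rw [e1, ← this, inner_neg_left, neg_neg]
  have hmem : t u ∈ Icc (inner ℝ u (X (v (-1))) : ℝ) (inner ℝ u (X (v 1))) := by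
    rw [ha, hb]; exact ⟨(D.tlo u hu0).le, (D.tup u hu0).le⟩
  obtain ⟨τ, hτ, he⟩ := intermediate_value_Icc (show (-1 : ℝ) ≤ 1 by norm_num)
    hXc.continuousOn hmem
  simp only at he
  have h1 : τ ≠ 1 := by
    rintro rfl; rw [hb] at he; linarith [D.tup u hu0]
  have h2 : τ ≠ -1 := by
    rintro rfl; rw [ha] at he; linarith [D.tlo u hu0]
  have h3 : τ < 1 := lt_of_le_of_ne hτ.2 h1
  have h4 : -1 < τ := lt_of_le_of_ne hτ.1 (Ne.symm h2)
  have hsec : Sec p q (v τ) := by
    rw [Sec, hvp, hvq, abs_zero]; nlinarith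
  have hn : 0 < ‖v τ‖ := norm_pos_iff.2 (hv0 τ)
  have hP := (key hlow D h hK hm hsec
    (hu _ (D.Xmem _ (hv0 τ)) (X_sec D h hK hm hsec) he)).2 (‖v τ‖⁻¹) (inv_pos.2 hn)
  refine ⟨‖v τ‖⁻¹ • v τ, ?_, ?_, hP⟩
  · rw [norm_smul, norm_inv, norm_norm]; exact inv_mul_cancel₀ hn.ne'
  · rw [Sec, inner_smul_right, inner_smul_right, abs_mul, abs_of_pos (inv_pos.2 hn)]
    exact mul_lt_mul_of_pos_left hsec (inv_pos.2 hn)

/-- A degenerate direction in the plane gives equality. -/
theorem plane_end (hlow : S_lower) (D : Dat K δ lam X t) (h : ON p q) (hK : iot p q '' K = K)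
    (hm : ∀ v, Sec p q v → supp K (rr p q v) ≤ supp K v) {u : E n} (hup : (0 : ℝ) < inner ℝ p u)
    (huc : CSec p q u) (hu : PP K t p q u) (he : u - eE p q u = 0) : supp K p = supp K q := by
  have hu0 : u ≠ 0 := by rintro rfl; simp at hup
  have hue : u = (inner ℝ p u : ℝ) • p + (inner ℝ q u : ℝ) • q := sub_eq_zero.1 he
  let w : ℝ → E n := fun τ => p + τ • q
  have hwp : ∀ τ, inner ℝ p (w τ) = (1 : ℝ) := by
    intro τ; simp only [w, inner_add_right, inner_smul_right, pp h, h.pq]; ring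
  have hwq : ∀ τ, inner ℝ q (w τ) = τ := by
    intro τ; simp only [w, inner_add_right, inner_smul_right, qq h, qp h]; ring
  have hw0 : ∀ τ, w τ ≠ 0 := by
    intro τ h0
    have := hwp τ
    rw [h0, inner_zero_right] at this
    norm_num at this
  have hwi : ∀ τ, iot p q (w τ) = - w τ := by
    intro τ; rw [iot, hwp, hwq]; simp only [w]; module
  have hws : ∀ τ ∈ Ioo (-1 : ℝ) 1, Sec p q (w τ) := by
    intro τ hτ
    rw [Sec, hwp, hwq]; exact abs_lt.2 hτ
  have hwc : Continuous w := by fun_prop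
  -- propagation
  have hprop : ∀ τ ∈ Ioo (-1 : ℝ) 1, PP K t p q (w τ) →
      ∀ᶠ σ in 𝓝 τ, σ ∈ Ioo (-1 : ℝ) 1 ∧ PP K t p q (w σ) := by
    intro τ hτ hP
    have h1 := planar hlow D h hK hm (hw0 τ) (hwi τ) hP one_pos
    rw [one_smul] at h1
    have h2 := (hwc.tendsto τ).eventually h1
    filter_upwards [h2, isOpen_Ioo.mem_nhds hτ] with σ h3 h4
    refine ⟨h4, ?_⟩
    have := (h3 (hws σ h4)).2 1 one_pos
    rwa [one_smul] at this
  -- nonempty
  obtain ⟨τ0, hτ0, hP0⟩ : ∃ τ ∈ Ioo (-1 : ℝ) 1, PP K t p q (w τ) := by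
    have hs : 0 < (inner ℝ p u : ℝ)⁻¹ := inv_pos.2 hup
    have hiu : iot p q u = -u := by
      rw [iot_eq, sub_eq_zero.1 he |>.symm]; module
    have h1 := planar hlow D h hK hm hu0 hiu hu hs
    set c : ℝ := (inner ℝ p u : ℝ)⁻¹ * inner ℝ q u with hc
    have e1 : (inner ℝ p u : ℝ)⁻¹ • u = w c := by
      nth_rewrite 2 [hue]
      simp only [w, hc]
      rw [smul_add, smul_smul, smul_smul, inv_mul_cancel₀ hup.ne', one_smul]
    rw [e1] at h1
    have h2 := (hwc.tendsto c).eventually h1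
    have hcI : c ∈ closure (Ioo (-1 : ℝ) 1) := by
      rw [closure_Ioo (by norm_num), mem_Icc, ← abs_le, hc, abs_mul, abs_of_pos hs,
        inv_mul_le_iff₀ hup, mul_one]
      exact huc
    obtain ⟨σ, h3, h4⟩ := (mem_closure_iff_frequently.1 hcI).and_eventually h2 |>.exists
    refine ⟨σ, h3, ?_⟩
    have := (h4 (hws σ h3)).2 1 one_pos
    rwa [one_smul] at this
  -- connectedness
  have hU : IsOpen {τ : ℝ | τ ∈ Ioo (-1 : ℝ) 1 ∧ PP K t p q (w τ)} := by
    rw [isOpen_iff_mem_nhds]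
    rintro τ ⟨h1, h2⟩
    exact hprop τ h1 h2
  have hV : IsOpen {τ : ℝ | ¬ PP K t p q (w τ)} := by
    rw [isOpen_iff_mem_nhds]
    intro τ h1
    exact (hwc.tendsto τ).eventually (not_PP_open D (hw0 τ) h1)
  have hsub : Ioo (-1 : ℝ) 1 ⊆ {τ : ℝ | τ ∈ Ioo (-1 : ℝ) 1 ∧ PP K t p q (w τ)} := by
    refine isPreconnected_Ioo.subset_left_of_subset_union hU hV ?_ ?_ ⟨τ0, hτ0, hτ0, hP0⟩
    · rw [Set.disjoint_left]
      rintro τ ⟨_, h1⟩ h2
      exact h2 h1
    · intro τ hτ
      by_cases h1 : PP K t p q (w τ)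
      · exact Or.inl ⟨hτ, h1⟩
      · exact Or.inr h1
  have hP : PP K t p q p := by
    have := (hsub (show (0 : ℝ) ∈ Ioo (-1 : ℝ) 1 by norm_num)).2
    simpa [w] using this
  have hp0 : p ≠ 0 := by
    have := hw0 0; simpa [w] using this
  have hip : iot p q p = -p := by
    have := hwi 0; simpa [w] using this
  have hsp : Sec p q p := by
    have := hws 0 (by norm_num); simpa [w] using this
  have h1 := planar hlow D h hK hm hp0 hip hP one_pos
  rw [one_smul] at h1
  have h2 := (h1.self_of_nhds hsp).1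
  have h3 := hm p hsp
  have h4 : rr p q p = q := by
    rw [rr, inner_sub_left, pp h, qp h]; module
  rw [h4] at h2 h3
  exact le_antisymm h2 h3

theorem topo (hlow : S_lower) : S_topo := by
  intro n K δ lam X t p q D h hK hm hex
  -- a unit vector of the open sector
  obtain ⟨w, hw1, hwc, hwp, hwP⟩ : ∃ w : E n, ‖w‖ = 1 ∧ CSec p q w ∧ (0 : ℝ) < inner ℝ p w ∧
      PP K t p q w := by
    obtain ⟨u, hu0, huc, hu⟩ := hex
    rcases hu with ⟨hc, hu⟩ | ⟨hc, hu⟩
    · have hup : (0 : ℝ) < inner ℝ p u := by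
        have h1 : |(inner ℝ q u : ℝ)| ≤ inner ℝ p u := huc
        rcases ((abs_nonneg _).trans h1).lt_or_eq with h2 | h2
        · exact h2
        · exfalso
          refine hc ⟨h2.symm, ?_⟩
          rw [← h2] at h1
          exact abs_eq_zero.1 (le_antisymm h1 (abs_nonneg _))
      by_cases hne : u - eE p q u = 0
      · have hs : 0 < ‖u‖⁻¹ := inv_pos.2 (norm_pos_iff.2 hu0)
        have hiu : iot p q u = -u := by
          rw [iot_eq, sub_eq_zero.1 hne |>.symm]; module
        have h1 := planar hlow D h hK hm hu0 hiu hu hs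
        -- approach by vectors of the open sector
        have hpath : Continuous fun η : ℝ => ‖u‖⁻¹ • u + η • p := by fun_prop
        have h2 : ∀ᶠ η in 𝓝 (0 : ℝ), Sec p q (‖u‖⁻¹ • u + η • p) →
            supp K (‖u‖⁻¹ • u + η • p) ≤ supp K (rr p q (‖u‖⁻¹ • u + η • p)) ∧
              ∀ r : ℝ, 0 < r → PP K t p q (r • (‖u‖⁻¹ • u + η • p)) := by
          have h3 := hpath.continuousAt (x := 0)
          rw [ContinuousAt, zero_smul, add_zero] at h3
          exact h3.eventually h1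
        have e3 : ∀ᶠ η in 𝓝[>] (0 : ℝ), 0 < η := eventually_mem_nhdsWithin
        obtain ⟨η, hη1, hη2⟩ := (e3.and (h2.filter_mono nhdsWithin_le_nhds)).exists
        set y : E n := ‖u‖⁻¹ • u + η • p with hy
        have hyp : inner ℝ p y = ‖u‖⁻¹ * (inner ℝ p u : ℝ) + η := by
          rw [hy, inner_add_right, inner_smul_right, inner_smul_right, pp h]; ring
        have hyq : inner ℝ q y = ‖u‖⁻¹ * (inner ℝ q u : ℝ) := by
          rw [hy, inner_add_right, inner_smul_right, inner_smul_right, qp h]; ring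
        have hsec : Sec p q y := by
          rw [Sec, hyp, hyq, abs_mul, abs_of_pos hs]
          have : |(inner ℝ q u : ℝ)| ≤ inner ℝ p u := huc
          nlinarith [mul_le_mul_of_nonneg_left this hs.le]
        have hyn : 0 < ‖y‖ := norm_pos_iff.2 (sec_ne hsec)
        have hsec' : Sec p q (‖y‖⁻¹ • y) := by
          rw [Sec, inner_smul_right, inner_smul_right, abs_mul, abs_of_pos (inv_pos.2 hyn)]
          exact mul_lt_mul_of_pos_left hsec (inv_pos.2 hyn)
        refine ⟨‖y‖⁻¹ • y, ?_, hsec'.le, sec_pos hsec', (hη2 hsec).2 _ (inv_pos.2 hyn)⟩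
        rw [norm_smul, norm_inv, norm_norm]; exact inv_mul_cancel₀ hyn.ne'
      · obtain ⟨w, h1, h2, h3, _⟩ := descend hlow D h hK hm hup huc hu hne
        exact ⟨w, h1, h2.le, sec_pos h2, h3⟩
    · obtain ⟨w, h1, h2, h3⟩ := corner hlow D h hK hm hu0 hc hu
      exact ⟨w, h1, h2.le, sec_pos h2, h3⟩
  -- the best unit vector
  let S : Set (E n) := {u | ‖u‖ = 1 ∧ CSec p q u ∧ PP K t p q u}
  have hScl : IsClosed S := by
    rw [← isOpen_compl_iff, isOpen_iff_mem_nhds]
    intro u hu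
    by_cases h1 : ‖u‖ = 1
    · by_cases h2 : CSec p q u
      · have h3 : ¬ PP K t p q u := fun h3 => hu ⟨h1, h2, h3⟩
        have hu0 : u ≠ 0 := by rintro rfl; simp at h1
        filter_upwards [not_PP_open D hu0 h3] with v hv hvS
        exact hv hvS.2.2
      · have c1 : Continuous fun v : E n => |(inner ℝ q v : ℝ)| := by fun_prop
        have c2 : Continuous fun v : E n => (inner ℝ p v : ℝ) := by fun_prop
        have h3 : (inner ℝ p u : ℝ) < |(inner ℝ q u : ℝ)| := not_le.1 h2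
        filter_upwards [c2.continuousAt.eventually_lt c1.continuousAt h3] with v hv hvS
        exact absurd hvS.2.1 (not_le.2 hv)
    · have : ∀ᶠ v : E n in 𝓝 u, ‖v‖ ≠ 1 := continuous_norm.continuousAt.eventually_ne h1
      filter_upwards [this] with v hv hvS
      exact hv hvS.1
  have hSco : IsCompact S := by
    apply (isCompact_sphere (0 : E n) 1).of_isClosed_subset hScl
    intro u hu
    simpa using hu.1
  have hG : Continuous (G2 p q : E n → ℝ) := by unfold G2; fun_prop
  obtain ⟨u0, hu0, hmax⟩ := hSco.exists_isMaxOn ⟨w, hw1, hwc, hwP⟩ hG.continuousOn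
  have hGw : 0 < G2 p q w := by unfold G2; positivity
  have hGu : 0 < G2 p q u0 := hGw.trans_le (hmax ⟨hw1, hwc, hwP⟩)
  have hup : (0 : ℝ) < inner ℝ p u0 := by
    have h1 : |(inner ℝ q u0 : ℝ)| ≤ inner ℝ p u0 := hu0.2.1
    rcases ((abs_nonneg _).trans h1).lt_or_eq with h2 | h2
    · exact h2
    · exfalso
      rw [← h2] at h1
      have h3 : (inner ℝ q u0 : ℝ) = 0 := abs_eq_zero.1 (le_antisymm h1 (abs_nonneg _))
      rw [G2, ← h2, h3] at hGu
      norm_num at hGu
  by_cases hne : u0 - eE p q u0 = 0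
  · exact plane_end hlow D h hK hm hup hu0.2.1 hu0.2.2 hne
  · exfalso
    obtain ⟨y, h1, h2, h3, h4⟩ := descend hlow D h hK hm hup hu0.2.1 hu0.2.2 hne
    have h5 : G2 p q y ≤ G2 p q u0 := hmax ⟨h1, h2.le, h3⟩
    have h6 := norm_sq_eq h y
    have h7 := norm_sq_eq h u0
    rw [h1] at h6
    rw [hu0.1] at h7
    have hGy : 0 < G2 p q y := by
      have := sec_pos h2
      unfold G2; positivity
    rw [gt_iff_lt, div_lt_div_iff₀ hGy hGu] at h4
    nlinarith

end Pool.Agent.Helper36.SY
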