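import Pool.Agent.Helper73.SY.Stmts
import Pool.Agent.Helper65.LR.Rh

/-!
# Basic facts for the sliding method (project MP_a2630c_SY, module TOP)
-/

open MeasureTheory Set Metric Real Filter Topology
open scoped RealInnerProductSpace ENNReal
open Pool.Agent.Helper16.Buoy (E cap IsEllipsoid Homothetic buoyancyBody)
open Pool.Agent.Helper73.HV (supp)
open Pool.Agent.Helper73.LR (CB vol GG Sol aff)
open Pool.Agent.Helper73.SY

namespace Pool.Agent.Helper36.SY

variable {n : ℕ} {K : Set (E n)} {δ lam : ℝ} {X : E n → E n} {t : E n → ℝ} {p q : E n}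

theorem pp (h : ON p q) : inner ℝ p p = (1 : ℝ) := by
  rw [real_inner_self_eq_norm_sq, h.p1]; norm_num

theorem qq (h : ON p q) : inner ℝ q q = (1 : ℝ) := by
  rw [real_inner_self_eq_norm_sq, h.q1]; norm_num

theorem qp (h : ON p q) : inner ℝ q p = (0 : ℝ) := by
  rw [real_inner_comm]; exact h.pq

theorem ip_iot (h : ON p q) (x : E n) : inner ℝ p (iot p q x) = -(inner ℝ p x : ℝ) := by
  simp only [iot, inner_sub_right, inner_smul_right, pp h, h.pq]; ring

theorem iq_iot (h : ON p q) (x : E n) : inner ℝ q (iot p q x) = -(inner ℝ q x : ℝ) := by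
  simp only [iot, inner_sub_right, inner_smul_right, qp h, qq h]; ring

theorem iot_iot (h : ON p q) (x : E n) : iot p q (iot p q x) = x := by
  have h1 := ip_iot h x
  have h2 := iq_iot h x
  rw [iot, h1, h2, iot]
  module

theorem inner_iot_left (u x : E n) : inner ℝ (iot p q u) x = (inner ℝ u x : ℝ)
    - 2 * inner ℝ p u * inner ℝ p x - 2 * inner ℝ q u * inner ℝ q x := by
  simp only [iot, inner_sub_left, inner_smul_left, conj_trivial]

theorem inner_iot (u x : E n) : inner ℝ u (iot p q x) = (inner ℝ u x : ℝ)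
    - 2 * inner ℝ p u * inner ℝ p x - 2 * inner ℝ q u * inner ℝ q x := by
  simp only [iot, inner_sub_right, inner_smul_right]
  rw [real_inner_comm p u, real_inner_comm q u]; ring

theorem inner_iot_comm (u x : E n) : inner ℝ (iot p q u) x = (inner ℝ u (iot p q x) : ℝ) := by
  rw [inner_iot_left, inner_iot]

theorem iot_ne (h : ON p q) {u : E n} (hu : u ≠ 0) : iot p q u ≠ 0 := by
  intro h0
  apply hu
  rw [← iot_iot h u, h0]
  simp [iot]

theorem rr_rr (h : ON p q) (x : E n) : rr p q (rr p q x) = x := by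
  have h2 : inner ℝ (p - q) (p - q) = (2 : ℝ) := by
    simp only [inner_sub_left, inner_sub_right, pp h, qq h, qp h, h.pq]; norm_num
  simp only [rr, inner_sub_right, inner_smul_right, h2]
  module

theorem inner_rr_left (u x : E n) : inner ℝ (rr p q u) x = (inner ℝ u x : ℝ)
    - inner ℝ (p - q) u * inner ℝ (p - q) x := by
  simp only [rr, inner_sub_left, inner_smul_left, conj_trivial]

theorem inner_rr (u x : E n) : inner ℝ u (rr p q x) = (inner ℝ u x : ℝ)
    - inner ℝ (p - q) u * inner ℝ (p - q) x := by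
  simp only [rr, inner_sub_right, inner_smul_right]
  rw [real_inner_comm p u, real_inner_comm q u]
  simp only [inner_sub_left]; ring

theorem inner_rr_comm (u x : E n) : inner ℝ (rr p q u) x = (inner ℝ u (rr p q x) : ℝ) := by
  rw [inner_rr_left, inner_rr]

theorem rr_ne (h : ON p q) {u : E n} (hu : u ≠ 0) : rr p q u ≠ 0 := by
  intro h0
  apply hu
  rw [← rr_rr h u, h0]
  simp [rr]

theorem ip_rr (h : ON p q) (x : E n) : inner ℝ p (rr p q x) = (inner ℝ q x : ℝ) := by
  simp only [rr, inner_sub_right, inner_smul_right, inner_sub_left, pp h, h.pq]; ring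

theorem iq_rr (h : ON p q) (x : E n) : inner ℝ q (rr p q x) = (inner ℝ p x : ℝ) := by
  simp only [rr, inner_sub_right, inner_smul_right, inner_sub_left, qq h, qp h]; ring

theorem iot_mem (hK : iot p q '' K = K) {x : E n} (hx : x ∈ K) : iot p q x ∈ K := by
  rw [← hK]; exact mem_image_of_mem _ hx

theorem sec_ne {v : E n} (hv : Sec p q v) : v ≠ 0 := by
  rintro rfl
  have := lt_of_le_of_lt (abs_nonneg _) hv
  simp at this

theorem sec_pos {v : E n} (hv : Sec p q v) : (0 : ℝ) < inner ℝ p v :=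
  lt_of_le_of_lt (abs_nonneg _) hv

theorem ww_pos {v : E n} (hv : Sec p q v) : 0 < ww p q v := by
  have h1 := abs_lt.1 hv
  rw [ww]
  nlinarith [h1.1, h1.2]

theorem ne_of_sup (D : Dat K δ lam X t) : K.Nonempty := D.cs.cb.int.mono interior_subset

theorem le_sup (D : Dat K δ lam X t) {x : E n} (hx : x ∈ K) (u : E n) :
    inner ℝ u x ≤ supp K u := Pool.Agent.Helper65.LR.le_supp D.cs.cb.comp hx u

theorem supp_hom (D : Dat K δ lam X t) {a : ℝ} (ha : 0 ≤ a) (u : E n) :
    supp K (a • u) = a * supp K u :=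
  Pool.Agent.Helper65.LR.supp_smul D.cs.cb.comp (ne_of_sup D) ha u

theorem X_smul (D : Dat K δ lam X t) {u : E n} (hu : u ≠ 0) {s : ℝ} (hs : 0 < s) :
    X (s • u) = X u := by
  have hsu : s • u ≠ 0 := smul_ne_zero hs.ne' hu
  apply D.Xuni u hu _ (D.Xmem _ hsu)
  have h1 := D.Xsup _ hsu
  rw [supp_hom D hs.le, inner_smul_left, conj_trivial] at h1
  exact mul_left_cancel₀ hs.ne' h1

theorem supp_iot (D : Dat K δ lam X t) (h : ON p q) (hK : iot p q '' K = K) {u : E n}
    (hu : u ≠ 0) : supp K (iot p q u) = supp K u := by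
  have key : ∀ v : E n, v ≠ 0 → supp K (iot p q v) ≤ supp K v := by
    intro v hv
    rw [← D.Xsup _ (iot_ne h hv), inner_iot_comm]
    exact le_sup D (iot_mem hK (D.Xmem _ (iot_ne h hv))) v
  apply le_antisymm (key u hu)
  have := key _ (iot_ne h hu)
  rwa [iot_iot h] at this

/-- The component in the plane of the support point is positive in the direction of `v`. -/
theorem comp_pos (D : Dat K δ lam X t) (h : ON p q) (hK : iot p q '' K = K) {v : E n}
    (hv : (inner ℝ p v : ℝ) ≠ 0) :
    0 < (inner ℝ p v : ℝ) * inner ℝ p (X v) + inner ℝ q v * inner ℝ q (X v) := by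
  have hv0 : v ≠ 0 := by rintro rfl; simp at hv
  have hx := D.Xmem v hv0
  have hsup := D.Xsup v hv0
  have h1 : inner ℝ v (iot p q (X v)) ≤ supp K v := le_sup D (iot_mem hK hx) v
  rw [inner_iot] at h1
  have h2 : 0 ≤ (inner ℝ p v : ℝ) * inner ℝ p (X v) + inner ℝ q v * inner ℝ q (X v) := by
    linarith
  rcases h2.lt_or_eq with h3 | h3
  · exact h3
  · exfalso
    have h4 : inner ℝ (iot p q v) (X v) = supp K (iot p q v) := by
      rw [supp_iot D h hK hv0, inner_iot_left, hsup]; linarith
    obtain ⟨s, hs, he⟩ := D.nor v (iot p q v) (X v) hv0 (iot_ne h hv0) hx hsup h4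
    have h5 := ip_iot h v
    rw [he, inner_smul_right] at h5
    have h6 : (s + 1) * (inner ℝ p v : ℝ) = 0 := by linarith
    rcases mul_eq_zero.1 h6 with h7 | h7
    · linarith
    · exact hv h7

/-- The support point of a vector of the sector lies in the sector. -/
theorem X_sec (D : Dat K δ lam X t) (h : ON p q) (hK : iot p q '' K = K)
    (hm : ∀ v, Sec p q v → supp K (rr p q v) ≤ supp K v) {v : E n} (hv : Sec p q v) :
    Sec p q (X v) := by
  have hv0 : v ≠ 0 := sec_ne hv
  have hx := D.Xmem v hv0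
  have hsup := D.Xsup v hv0
  have hab := abs_lt.1 hv
  have hr0 : rr p q v ≠ 0 := rr_ne h hv0
  have hi0 : iot p q (rr p q v) ≠ 0 := iot_ne h hr0
  have h1 : inner ℝ (rr p q v) (X v) ≤ supp K v := (le_sup D hx _).trans (hm v hv)
  have h2 : inner ℝ (iot p q (rr p q v)) (X v) ≤ supp K v := by
    refine (le_sup D hx _).trans ?_
    rw [supp_iot D h hK hr0]; exact hm v hv
  have e1 : inner ℝ (rr p q v) (X v) = (inner ℝ v (X v) : ℝ)
      - ((inner ℝ p v : ℝ) - inner ℝ q v) * ((inner ℝ p (X v) : ℝ) - inner ℝ q (X v)) := by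
    rw [inner_rr_left]; simp only [inner_sub_left]
  have e2 : inner ℝ (iot p q (rr p q v)) (X v) = (inner ℝ v (X v) : ℝ)
      - ((inner ℝ p v : ℝ) + inner ℝ q v) * ((inner ℝ p (X v) : ℝ) + inner ℝ q (X v)) := by
    rw [inner_iot_left, e1, ip_rr h, iq_rr h]; ring
  rw [Sec, abs_lt]
  constructor
  · -- `-x_p < x_q`
    rw [e2, hsup] at h2
    have h3 : 0 ≤ (inner ℝ p (X v) : ℝ) + inner ℝ q (X v) := by
      by_contra h4
      push Not at h4
      nlinarith [hab.1]
    rcases h3.lt_or_eq with h4 | h4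
    · linarith
    · exfalso
      have h5 : inner ℝ (iot p q (rr p q v)) (X v) = supp K (iot p q (rr p q v)) := by
        apply le_antisymm (le_sup D hx _)
        rw [supp_iot D h hK hr0, e2, ← h4, hsup, mul_zero, sub_zero]
        exact hm v hv
      obtain ⟨s, hs, he⟩ := D.nor v _ (X v) hv0 hi0 hx hsup h5
      have h6 := ip_iot h (rr p q v)
      have h7 := iq_iot h (rr p q v)
      rw [he, inner_smul_right, ip_rr h] at h6
      rw [he, inner_smul_right, iq_rr h] at h7
      have h8 : (s + 1) * ((inner ℝ p v : ℝ) + inner ℝ q v) = 0 := by linarith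
      rcases mul_eq_zero.1 h8 with h9 | h9 <;> linarith [hab.1]
  · rw [e1, hsup] at h1
    have h3 : 0 ≤ (inner ℝ p (X v) : ℝ) - inner ℝ q (X v) := by
      by_contra h4
      push Not at h4
      nlinarith [hab.2]
    rcases h3.lt_or_eq with h4 | h4
    · linarith
    · exfalso
      have h5 : inner ℝ (rr p q v) (X v) = supp K (rr p q v) := by
        apply le_antisymm (le_sup D hx _)
        rw [e1, ← h4, hsup, mul_zero, sub_zero]
        exact hm v hv
      obtain ⟨s, hs, he⟩ := D.nor v _ (X v) hv0 hr0 hx hsup h5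
      have h6 := ip_rr h v
      have h7 := iq_rr h v
      rw [he, inner_smul_right] at h6 h7
      have h8 : (s + 1) * ((inner ℝ p v : ℝ) - inner ℝ q v) = 0 := by linarith
      rcases mul_eq_zero.1 h8 with h9 | h9 <;> linarith [hab.2]

/-- If the support point of `v` lies in the reflected body, the hyperplanes are degenerate. -/
theorem key (hlow : S_lower) (D : Dat K δ lam X t) (h : ON p q) (hK : iot p q '' K = K)
    (hm : ∀ v, Sec p q v → supp K (rr p q v) ≤ supp K v) {v : E n} (hv : Sec p q v)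
    (hx : X v ∈ rr p q '' K) : supp K v ≤ supp K (rr p q v) ∧ ∀ s : ℝ, 0 < s → PP K t p q (s • v) := by
  have hv0 := sec_ne hv
  obtain ⟨y, hy, hye⟩ := hx
  have h1 : supp K v ≤ supp K (rr p q v) := by
    rw [← D.Xsup v hv0, ← hye, ← inner_rr_comm]
    exact le_sup D hy _
  refine ⟨h1, fun s hs => ?_⟩
  by_contra hP
  have hsv : Sec p q (s • v) := by
    rw [Sec, inner_smul_right, inner_smul_right, abs_mul, abs_of_pos hs]
    exact mul_lt_mul_of_pos_left hv hs
  have hnc : ¬ Cor p q (s • v) := fun hc => (sec_pos hsv).ne' hc.1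
  obtain ⟨c, hc, hev⟩ := hlow D h hK hm (s • v) (smul_ne_zero hs.ne' hv0) hsv.le (Or.inl ⟨hnc, hP⟩)
  have h2 := hev.self_of_nhds hsv
  have h3 : rr p q (s • v) = s • rr p q v := by
    simp only [rr, inner_smul_right]; module
  rw [h3, supp_hom D hs.le, supp_hom D hs.le] at h2
  have h4 := mul_pos hc (ww_pos hsv)
  nlinarith

/-- The forward step. -/
theorem fwd (hlow : S_lower) (D : Dat K δ lam X t) (h : ON p q) (hK : iot p q '' K = K)
    (hm : ∀ v, Sec p q v → supp K (rr p q v) ≤ supp K v) {u v : E n} (hu : PP K t p q u)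
    (hv : Sec p q v) (h1 : inner ℝ u (iot p q (X v)) < t u) (h2 : t u < inner ℝ u (X v)) :
    supp K v ≤ supp K (rr p q v) ∧ ∀ s : ℝ, 0 < s → PP K t p q (s • v) :=
  key hlow D h hK hm hv (hu _ (D.Xmem v (sec_ne hv)) (X_sec D h hK hm hv) h1 h2)

theorem cX (D : Dat K δ lam X t) {v : E n} (hv : v ≠ 0) : ContinuousAt X v :=
  D.Xc.continuousAt (isOpen_compl_singleton.mem_nhds hv)

theorem ct (D : Dat K δ lam X t) {v : E n} (hv : v ≠ 0) : ContinuousAt t v :=
  D.tc.continuousAt (isOpen_compl_singleton.mem_nhds hv)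

theorem iot_cont : Continuous (iot p q : E n → E n) := by
  unfold iot; fun_prop

/-- Failure of `PP` is an open condition. -/
theorem not_PP_open (D : Dat K δ lam X t) {u : E n} (hu : u ≠ 0) (hP : ¬ PP K t p q u) :
    ∀ᶠ v in 𝓝 u, ¬ PP K t p q v := by
  unfold PP at hP
  push Not at hP
  obtain ⟨x, hx, hs, h1, h2, h3⟩ := hP
  have c1 : ContinuousAt (fun v : E n => (inner ℝ v (iot p q x) : ℝ)) u := by fun_prop
  have c2 : ContinuousAt (fun v : E n => (inner ℝ v x : ℝ)) u := by fun_prop
  have c3 := ct D hu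
  filter_upwards [c1.eventually_lt c3 h1, c3.eventually_lt c2 h2] with v h4 h5 hP
  exact h3 (hP x hx hs h4 h5)

/-- Degenerate directions in the plane propagate. -/
theorem planar (hlow : S_lower) (D : Dat K δ lam X t) (h : ON p q) (hK : iot p q '' K = K)
    (hm : ∀ v, Sec p q v → supp K (rr p q v) ≤ supp K v) {u : E n} (hu0 : u ≠ 0)
    (hui : iot p q u = -u) (hu : PP K t p q u) {s : ℝ} (hs : 0 < s) :
    ∀ᶠ v in 𝓝 (s • u), Sec p q v →
      supp K v ≤ supp K (rr p q v) ∧ ∀ r : ℝ, 0 < r → PP K t p q (r • v) := by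
  have hsu : s • u ≠ 0 := smul_ne_zero hs.ne' hu0
  have c1 : ContinuousAt (fun v : E n => (inner ℝ u (iot p q (X v)) : ℝ)) (s • u) :=
    (continuous_const.inner iot_cont).continuousAt.comp (f := X) (cX D hsu)
  have c2 : ContinuousAt (fun v : E n => (inner ℝ u (X v) : ℝ)) (s • u) :=
    continuousAt_const.inner (cX D hsu)
  have e2 : inner ℝ u (X (s • u)) = supp K u := by rw [X_smul D hu0 hs, D.Xsup u hu0]
  have e1 : inner ℝ u (iot p q (X (s • u))) = -supp K u := by
    rw [← inner_iot_comm, hui, inner_neg_left, e2]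
  have e3 : supp K (-u) = supp K u := by rw [← hui, supp_iot D h hK hu0]
  have h1 : inner ℝ u (iot p q (X (s • u))) < t u := by
    have := D.tlo u hu0
    rw [e1]; rwa [e3] at this
  have h2 : t u < inner ℝ u (X (s • u)) := by rw [e2]; exact D.tup u hu0
  filter_upwards [c1.eventually_lt continuousAt_const h1,
    ContinuousAt.eventually_lt continuousAt_const c2 h2] with v h4 h5 hv
  exact fwd hlow D h hK hm hu hv h4 h5

end Pool.Agent.Helper36.SY
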